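import Pool.Agent.Helper21.K1.Liou
import Mathlib.NumberTheory.ModularForms.JacobiTheta.TwoVariable

/-! # The zeros of `jacobiTheta₂` -/

noncomputable section

namespace Pool.Agent.Helper21.K1

open Complex Filter Topology Set Metric Bornology Real
open Pool.Agent.Helper21.Reg
open scoped Classical

variable {τ : ℂ} (hτ : 0 < τ.im)

include hτ

lemma jt_differentiable : Differentiable ℂ (fun z => jacobiTheta₂ z τ) :=
  fun z => differentiableAt_jacobiTheta₂_fst z hτ

omit hτ in
lemma jt_half : jacobiTheta₂ ((1 + τ) / 2) τ = 0 := by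
  set z : ℂ := -((1 + τ) / 2) with hz
  have e1 : (1 + τ) / 2 = (z + 1) + τ := by rw [hz]; ring
  have e2 : jacobiTheta₂ ((1 + τ) / 2) τ = -jacobiTheta₂ z τ := by
    rw [e1, jacobiTheta₂_add_left', jacobiTheta₂_add_left]
    have : -(π : ℂ) * I * (τ + 2 * (z + 1)) = -((π : ℂ) * I) := by rw [hz]; ring
    rw [this, Complex.exp_neg, Complex.exp_pi_mul_I]
    norm_num
  have e3 : jacobiTheta₂ z τ = jacobiTheta₂ ((1 + τ) / 2) τ := by
    rw [hz, jacobiTheta₂_neg_left]
  rw [e3] at e2
  linear_combination e2 / 2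

/-- the constant Fourier coefficient is `1` -/
lemma jt_integral : ∫ x in (0 : ℝ)..1, jacobiTheta₂ (x : ℂ) τ = 1 := by
  have hs : Summable fun n : ℤ => rexp (-π * n ^ 2 * τ.im) := by
    have := ((summable_jacobiTheta₂_term_iff 0 τ).2 hτ).norm
    refine this.congr fun n => ?_
    rw [norm_jacobiTheta₂_term]; simp
  have key := intervalIntegral.hasSum_integral_of_dominated_convergence (a := 0) (b := 1)
    (μ := MeasureTheory.volume)
    (F := fun (n : ℤ) (x : ℝ) => jacobiTheta₂_term n (x : ℂ) τ)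
    (f := fun x : ℝ => jacobiTheta₂ (x : ℂ) τ)
    (fun (n : ℤ) (_ : ℝ) => rexp (-π * n ^ 2 * τ.im))
    (fun n => by
      apply Continuous.aestronglyMeasurable
      unfold jacobiTheta₂_term
      fun_prop)
    (fun n => Eventually.of_forall fun x _ => by
      rw [norm_jacobiTheta₂_term]; simp)
    (Eventually.of_forall fun x _ => hs)
    (by exact intervalIntegrable_const)
    (Eventually.of_forall fun x _ => hasSum_jacobiTheta₂_term _ hτ)
  have h0 : ∀ n : ℤ, ∫ x in (0 : ℝ)..1, jacobiTheta₂_term n (x : ℂ) τ = if n = 0 then 1 else 0 := by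
    intro n
    split_ifs with h
    · subst h
      simp [jacobiTheta₂_term]
    · have e : ∀ x : ℝ, jacobiTheta₂_term n (x : ℂ) τ
          = cexp (π * I * n ^ 2 * τ) * cexp ((2 * π * I * n) * x) := by
        intro x
        unfold jacobiTheta₂_term
        rw [Complex.exp_add]; ring
      simp_rw [e]
      rw [intervalIntegral.integral_const_mul, integral_exp_mul_complex]
      · have : cexp (2 * π * I * n * (1 : ℝ)) = 1 := by
          rw [Complex.exp_eq_one_iff]
          exact ⟨n, by push_cast; ring⟩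
        rw [this]
        simp
      · have h2 : (2 * (π : ℂ) * I) ≠ 0 := Complex.two_pi_I_ne_zero
        have h3 : (n : ℂ) ≠ 0 := by exact_mod_cast h
        exact mul_ne_zero h2 h3
  simp_rw [h0] at key
  exact key.unique (hasSum_ite_eq 0 1)

lemma jt_exists_ne : ∃ z, jacobiTheta₂ z τ ≠ 0 := by
  by_contra h
  push Not at h
  have := jt_integral hτ
  simp [h] at this

omit hτ in
lemma jt_zero_add_int_tau (z : ℂ) (n : ℤ) :
    jacobiTheta₂ (z + n * τ) τ = 0 ↔ jacobiTheta₂ z τ = 0 := by
  induction n using Int.induction_on with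
  | zero => simp
  | succ i ih =>
    have : z + ((i : ℤ) + 1 : ℤ) * τ = (z + (i : ℤ) * τ) + τ := by push_cast; ring
    rw [this, jacobiTheta₂_add_left', mul_eq_zero, ih]
    simp [Complex.exp_ne_zero]
  | pred i ih =>
    have : z + (-(i : ℤ) : ℤ) * τ = (z + (-(i : ℤ) - 1 : ℤ) * τ) + τ := by push_cast; ring
    rw [← ih, this, jacobiTheta₂_add_left', mul_eq_zero]
    simp [Complex.exp_ne_zero]

omit hτ in
lemma jt_add_int (z : ℂ) (n : ℤ) : jacobiTheta₂ (z + n) τ = jacobiTheta₂ z τ := by
  have h : Function.Periodic (fun z => jacobiTheta₂ z τ) 1 := fun z => jacobiTheta₂_add_left z τ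
  simpa using h.int_mul n z

omit hτ in
lemma jt_zero_of_lat {z : ℂ} (h : Lat τ (z + (1 + τ) / 2)) : jacobiTheta₂ z τ = 0 := by
  obtain ⟨m, n, h⟩ := h
  have e : z = ((-((1 + τ) / 2)) + m) + n * τ := by linear_combination h
  rw [e, jt_zero_add_int_tau, jt_add_int, jacobiTheta₂_neg_left, jt_half]

/-- `jacobiTheta₂` is a constant multiple of the theta product. -/
theorem jt_eq : ∃ c : ℂ, c ≠ 0 ∧ ∀ z, jacobiTheta₂ z τ = c * Th τ (z + (1 + τ) / 2) := by
  set g : ℂ → ℂ := fun z => Th τ (z + (1 + τ) / 2) with hg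
  set θ : ℂ → ℂ := fun z => jacobiTheta₂ z τ with hθ
  have hga : ∀ z, AnalyticAt ℂ g z := fun z => by
    have : Differentiable ℂ g := (Th_differentiable hτ).comp (by fun_prop)
    exact this.analyticAt z
  have hθa : ∀ z, AnalyticAt ℂ θ z := fun z => (jt_differentiable hτ).analyticAt z
  have g1 : ∀ z, g (z + 1) = g z := fun z => by
    simp only [hg]
    rw [show z + 1 + (1 + τ) / 2 = (z + (1 + τ) / 2) + 1 by ring, Th_add_one]
  have g2 : ∀ z, g (z + τ) = cexp (-π * I * (τ + 2 * z)) * g z := fun z => by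
    simp only [hg]
    rw [show z + τ + (1 + τ) / 2 = (z + (1 + τ) / 2) + τ by ring, Th_add_tau hτ]
    congr 1
    rw [← ee_neg]
    unfold ee
    have e : (-1 : ℂ) = cexp (π * I) := by rw [Complex.exp_pi_mul_I]
    rw [neg_eq_neg_one_mul, e, ← Complex.exp_add]
    congr 1
    ring
  have gord : ∀ z, meromorphicOrderAt g z = if Lat τ (z + (1 + τ) / 2) then 1 else 0 := by
    intro z
    have := Th_order hτ (z + (1 + τ) / 2)
    rw [← this]
    exact meromorphicOrderAt_comp_add_const_eq_meromorphicOrderAt (f := Th τ)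
  have θord : ∀ z, Lat τ (z + (1 + τ) / 2) → 1 ≤ meromorphicOrderAt θ z := by
    intro z hz
    have h0 : θ z = 0 := jt_zero_of_lat hz
    rw [(hθa z).meromorphicOrderAt_eq]
    have h1 : analyticOrderAt θ z ≠ 0 := by
      rw [Ne, (hθa z).analyticOrderAt_eq_zero]
      exact fun h => h h0
    have h2 : 1 ≤ analyticOrderAt θ z := Order.one_le_iff_ne_zero.2 h1
    cases h3 : analyticOrderAt θ z with
    | top => simp
    | coe k =>
      rw [h3] at h2
      have : 1 ≤ k := by exact_mod_cast h2
      simp only [ENat.map_natCast]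
      exact_mod_cast this
  obtain ⟨c, -, hc⟩ := liouville hτ (f := fun z => θ z / g z)
    (fun z => (hθa z).meromorphicAt.div (hga z).meromorphicAt)
    (fun z => by simp only [g1]; simp only [hθ]; rw [jacobiTheta₂_add_left])
    (fun z => by
      simp only [g2]; simp only [hθ]; rw [jacobiTheta₂_add_left']
      rw [mul_div_mul_left _ _ (Complex.exp_ne_zero _)])
    (fun z => by
      have e : (fun z => θ z / g z) = θ / g := rfl
      rw [e, meromorphicOrderAt_div (hθa z).meromorphicAt (hga z).meromorphicAt, gord]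
      split_ifs with h
      · have := θord z h
        cases h3 : meromorphicOrderAt θ z with
        | top => simp
        | coe k =>
          rw [h3] at this
          have h4 : (1 : ℤ) ≤ k := by exact_mod_cast this
          have : (0 : ℤ) ≤ k - 1 := by omega
          exact_mod_cast this
      · simp only [sub_zero]
        exact (hθa z).meromorphicOrderAt_nonneg)
  have key : ∀ z, θ z = c * g z := by
    intro z
    by_cases h : g z = 0
    · rw [h, mul_zero]
      exact jt_zero_of_lat ((Th_eq_zero_iff hτ _).1 h)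
    · have hcont : ContinuousAt (fun z => θ z / g z) z :=
        (hθa z).continuousAt.div (hga z).continuousAt h
      have := hc z hcont
      rw [← this]
      field_simp
  refine ⟨c, ?_, key⟩
  rintro rfl
  obtain ⟨z, hz⟩ := jt_exists_ne hτ
  apply hz
  have := key z
  simpa using this

/-- the zeros of `jacobiTheta₂` -/
theorem jt_zero_iff (z : ℂ) : jacobiTheta₂ z τ = 0 ↔ Lat τ (z + (1 + τ) / 2) := by
  obtain ⟨c, hc, h⟩ := jt_eq hτ
  rw [h, mul_eq_zero, Th_eq_zero_iff hτ]
  simp [hc]

theorem jt_zero_iff' (z : ℂ) : jacobiTheta₂ z τ = 0 ↔ Lat τ (z - (1 + τ) / 2) := by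
  rw [jt_zero_iff hτ]
  constructor
  · rintro ⟨m, n, h⟩
    exact ⟨m - 1, n - 1, by push_cast; linear_combination h⟩
  · rintro ⟨m, n, h⟩
    exact ⟨m + 1, n + 1, by push_cast; linear_combination h⟩

lemma Th_deriv_ne_zero {z : ℂ} (h : Lat τ z) : deriv (Th τ) z ≠ 0 := by
  have h1 := Th_order hτ z
  rw [if_pos h, (Th_analyticAt hτ z).meromorphicOrderAt_eq] at h1
  have h2 : analyticOrderAt (Th τ) z = 1 := by
    cases h3 : analyticOrderAt (Th τ) z with
    | top => rw [h3] at h1; simp at h1
    | coe k =>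
      rw [h3, ENat.map_natCast] at h1
      have : (k : ℤ) = 1 := by exact_mod_cast h1
      have : k = 1 := by exact_mod_cast this
      rw [this]; rfl
  have h4 := (Th_analyticAt hτ z).analyticOrderAt_deriv_add_one
  have h5 : (fun x => Th τ x - Th τ z) = Th τ := by
    rw [(Th_eq_zero_iff hτ z).2 h]; simp
  rw [h5, h2] at h4
  have h6 : analyticOrderAt (deriv (Th τ)) z = 0 := by
    cases h7 : analyticOrderAt (deriv (Th τ)) z with
    | top => rw [h7] at h4; simp at h4
    | coe k =>
      rw [h7] at h4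
      have : k + 1 = 1 := by exact_mod_cast h4
      have : k = 0 := by omega
      rw [this]; rfl
  exact ((Th_analyticAt hτ z).deriv.analyticOrderAt_eq_zero).1 h6

/-- the zeros of `jacobiTheta₂` are simple -/
theorem jt_deriv_ne_zero {z : ℂ} (h : jacobiTheta₂ z τ = 0) : jacobiTheta₂' z τ ≠ 0 := by
  obtain ⟨c, hc, he⟩ := jt_eq hτ
  have h1 := (hasDerivAt_jacobiTheta₂_fst z hτ).deriv
  have h2 : (fun z => jacobiTheta₂ z τ) = fun z => c * Th τ (z + (1 + τ) / 2) := funext he
  rw [← h1, h2, deriv_const_mul_field, deriv_comp_add_const]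
  exact mul_ne_zero hc (Th_deriv_ne_zero hτ ((jt_zero_iff hτ z).1 h))

omit hτ in
/-- `|θ(1/2)| < |θ(0)|` for purely imaginary `τ` -/
theorem jt_half_lt {t : ℝ} (ht : 0 < t) :
    ‖jacobiTheta₂ (1 / 2) (t * I)‖ < ‖jacobiTheta₂ 0 (t * I)‖ := by
  have him : 0 < ((t : ℂ) * I).im := by simpa using ht
  set a : ℤ → ℝ := fun n => rexp (-π * n ^ 2 * t) with ha
  have hs : Summable a := by
    have := ((summable_jacobiTheta₂_term_iff 0 (t * I)).2 him).norm
    refine this.congr fun n => ?_
    rw [norm_jacobiTheta₂_term]; simp [ha]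
  set b : ℤ → ℝ := fun n => (if Even n then 1 else -1) * a n with hb
  have hbs : Summable b := by
    refine hs.of_norm_bounded fun n => ?_
    rw [hb]
    simp only [norm_mul]
    split_ifs <;> simp [ha, abs_of_pos (Real.exp_pos _)]
  have hpos : ∀ n, 0 < a n := fun n => Real.exp_pos _
  have e0 : jacobiTheta₂ 0 (t * I) = ((∑' n, a n : ℝ) : ℂ) := by
    rw [Complex.ofReal_tsum]
    unfold jacobiTheta₂
    refine tsum_congr fun n => ?_
    simp only [jacobiTheta₂_term, ha]
    push_cast
    congr 1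
    linear_combination (π : ℂ) * n ^ 2 * t * Complex.I_sq
  have e1 : jacobiTheta₂ (1 / 2) (t * I) = ((∑' n, b n : ℝ) : ℂ) := by
    rw [Complex.ofReal_tsum]
    unfold jacobiTheta₂
    refine tsum_congr fun n => ?_
    simp only [jacobiTheta₂_term, hb, ha]
    rw [Complex.exp_add]
    have h1 : cexp (2 * π * I * n * (1 / 2)) = ((if Even n then 1 else -1 : ℝ) : ℂ) := by
      rw [show 2 * (π : ℂ) * I * n * (1 / 2) = n * (π * I) by ring, Complex.exp_int_mul,
        Complex.exp_pi_mul_I]
      split_ifs with h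
      · rw [h.neg_one_zpow]; simp
      · rw [(Int.not_even_iff_odd.1 h).neg_one_zpow]; simp
    rw [h1]
    push_cast
    congr 1
    congr 1
    linear_combination (π : ℂ) * n ^ 2 * t * Complex.I_sq
  rw [e0, e1, Complex.norm_real, Complex.norm_real, Real.norm_eq_abs, Real.norm_eq_abs,
    abs_of_pos (hs.tsum_pos (fun n => (hpos n).le) 0 (hpos 0)), abs_lt]
  constructor
  · rw [← tsum_neg]
    refine Summable.tsum_lt_tsum (i := 0) (fun n => ?_) ?_ hs.neg hbs
    · simp only [hb]; split_ifs <;> linarith [hpos n]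
    · simp only [hb]; simp; linarith [hpos 0]
  · refine Summable.tsum_lt_tsum (i := 1) (fun n => ?_) ?_ hbs hs
    · simp only [hb]; split_ifs <;> linarith [hpos n]
    · simp only [hb]; simp; linarith [hpos 1]

omit hτ in
theorem jt_half_ne {t : ℝ} (ht : 0 < t) : jacobiTheta₂ (1 / 2) (t * I) ≠ 0 := by
  have him : 0 < ((t : ℂ) * I).im := by simpa using ht
  rw [Ne, jt_zero_iff' him]
  rintro ⟨m, n, h⟩
  have h1 := congrArg Complex.im h
  simp at h1
  have h2 : (-(1 / 2) : ℝ) = n := by
    have : t * (-(1 / 2) - n) = 0 := by linarith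
    rcases mul_eq_zero.1 this with h | h
    · exact absurd h ht.ne'
    · linarith
  have h3 : (2 * n + 1 : ℝ) = 0 := by linarith
  have h4 : 2 * n + 1 = 0 := by exact_mod_cast h3
  omega

end Pool.Agent.Helper21.K1
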