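import Pool.Agent.Helper21.K1.Count

/-! # Choosing the isogeny -/

noncomputable section

namespace Pool.Agent.Helper21.K1

open Complex Filter Topology Set Metric Bornology MeasureTheory
open Pool.Agent.Helper21.Reg
open scoped ComplexConjugate

/-! ### the modulus is not constant -/

lemma rr_formula {τ : ℂ} : rr τ =
    (qp (ee τ) (ee (τ / 2)) * qp (ee τ) (ee (τ / 2))) ^ 2 *
      ((qp (ee τ) (-ee (τ / 2)) * qp (ee τ) (-ee (τ / 2))) ^ 2)⁻¹ := by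
  have hh : ee τ = ee (τ / 2) * ee (τ / 2) := by rw [← ee_add]; congr 1; ring
  have hne := ee_ne_zero (τ / 2)
  have e0 : (1 + τ) / 2 - 1 / 2 = τ / 2 := by ring
  have e1 : ee ((1 + τ) / 2) = -ee (τ / 2) := by
    have : (1 + τ) / 2 = 1 / 2 + τ / 2 := by ring
    rw [this, ee_add, ee_half]; ring
  have e2 : ee τ * (ee (τ / 2))⁻¹ = ee (τ / 2) := by rw [hh]; field_simp
  have e3 : ee τ * (-ee (τ / 2))⁻¹ = -ee (τ / 2) := by rw [hh]; field_simp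
  unfold rr
  rw [Xf_eq, e0]
  unfold Th
  rw [e1, e2, e3]

lemma ee_tendsto {a : ℝ} (ha : 0 < a) : Tendsto (fun t : ℝ => ee (I * t * a)) atTop (𝓝 0) := by
  rw [tendsto_zero_iff_norm_tendsto_zero]
  have e : (fun t : ℝ => ‖ee (I * t * a)‖) = fun t : ℝ => Real.exp (-(2 * Real.pi * a * t)) := by
    funext t
    rw [norm_ee]
    have : (I * (t : ℂ) * (a : ℂ)).im = t * a := by simp
    rw [this]
    ring_nf
  rw [e]
  have h1 : Tendsto (fun t : ℝ => 2 * Real.pi * a * t) atTop atTop :=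
    tendsto_id.const_mul_atTop (by positivity)
  exact Real.tendsto_exp_neg_atTop_nhds_zero.comp h1

lemma qp_tendsto : Tendsto (fun p : ℂ × ℂ => qp p.1 p.2) (𝓝 (0, 0)) (𝓝 1) := by
  have h := (qp_continuousAt (q := 0) (s := 0) (by simp)).tendsto
  have h00 : qp ((0 : ℂ), (0 : ℂ)).1 ((0 : ℂ), (0 : ℂ)).2 = 1 := qp_zero 0
  rwa [h00] at h

lemma rr_tendsto : Tendsto (fun t : ℝ => rr (I * t)) atTop (𝓝 1) := by
  have h1 : Tendsto (fun t : ℝ => ee (I * t)) atTop (𝓝 0) := by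
    refine (ee_tendsto one_pos).congr fun t => ?_
    rw [ofReal_one, mul_one]
  have h2 : Tendsto (fun t : ℝ => ee (I * t / 2)) atTop (𝓝 0) := by
    refine (ee_tendsto (a := 1 / 2) (by norm_num)).congr fun t => ?_
    have : I * (t : ℂ) * ((1 / 2 : ℝ) : ℂ) = I * t / 2 := by push_cast; ring
    rw [this]
  have h2' : Tendsto (fun t : ℝ => -ee (I * t / 2)) atTop (𝓝 0) := by
    have := h2.neg
    rwa [neg_zero] at this
  have k1 : Tendsto (fun t : ℝ => qp (ee (I * t)) (ee (I * t / 2))) atTop (𝓝 1) :=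
    Tendsto.comp (g := fun p : ℂ × ℂ => qp p.1 p.2)
      (f := fun t : ℝ => (ee (I * t), ee (I * t / 2))) qp_tendsto (h1.prodMk_nhds h2)
  have k2 : Tendsto (fun t : ℝ => qp (ee (I * t)) (-ee (I * t / 2))) atTop (𝓝 1) :=
    Tendsto.comp (g := fun p : ℂ × ℂ => qp p.1 p.2)
      (f := fun t : ℝ => (ee (I * t), -ee (I * t / 2))) qp_tendsto (h1.prodMk_nhds h2')
  have k3 := ((k1.mul k1).pow 2).mul (((k2.mul k2).pow 2).inv₀ (by norm_num))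
  have e1 : ((1 : ℂ) * 1) ^ 2 * (((1 : ℂ) * 1) ^ 2)⁻¹ = 1 := by norm_num
  rw [e1] at k3
  refine k3.congr fun t => ?_
  exact rr_formula.symm

lemma exists_tau {τ₁ : ℂ} (hτ₁ : 0 < τ₁.im) : ∃ τ : ℂ, 0 < τ.im ∧ (rr τ₁ * rr τ) ^ 2 ≠ 1 := by
  by_contra hcon
  push Not at hcon
  have h1 : Tendsto (fun t : ℝ => (rr τ₁ * rr (I * t)) ^ 2) atTop (𝓝 ((rr τ₁ * 1) ^ 2)) :=
    (rr_tendsto.const_mul _).pow 2
  have h2 : Tendsto (fun t : ℝ => (rr τ₁ * rr (I * t)) ^ 2) atTop (𝓝 1) := by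
    refine Tendsto.congr' ?_ tendsto_const_nhds
    filter_upwards [eventually_gt_atTop (0 : ℝ)] with t ht
    exact (hcon _ (by simpa using ht)).symm
  have h3 := tendsto_nhds_unique h1 h2
  apply rr_ne_pp hτ₁
  rw [pp_eq hτ₁]
  have := rr_ne_zero hτ₁
  rw [mul_one] at h3
  field_simp
  exact h3

/-! ### rational approximation -/

lemma exists_coords (L : PeriodPair) (z : ℂ) : ∃ x y : ℝ, z = x * L.ω₁ + y * L.ω₂ := by
  refine ⟨L.basis.repr z 0, L.basis.repr z 1, ?_⟩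
  conv_lhs => rw [← L.basis.sum_repr z]
  rw [Fin.sum_univ_two, L.basis_zero, L.basis_one, Complex.real_smul, Complex.real_smul]

lemma exists_den (r₁ r₂ r₃ r₄ : ℚ) : ∃ N : ℕ, 0 < N ∧ ∃ m₁ m₂ m₃ m₄ : ℤ,
    (N : ℚ) * r₁ = m₁ ∧ (N : ℚ) * r₂ = m₂ ∧ (N : ℚ) * r₃ = m₃ ∧ (N : ℚ) * r₄ = m₄ := by
  have h1 := Rat.den_mul_eq_num r₁
  have h2 := Rat.den_mul_eq_num r₂
  have h3 := Rat.den_mul_eq_num r₃
  have h4 := Rat.den_mul_eq_num r₄
  refine ⟨r₁.den * r₂.den * r₃.den * r₄.den,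
    Nat.mul_pos (Nat.mul_pos (Nat.mul_pos r₁.den_pos r₂.den_pos) r₃.den_pos) r₄.den_pos,
    r₁.num * (r₂.den * r₃.den * r₄.den), r₂.num * (r₁.den * r₃.den * r₄.den),
    r₃.num * (r₁.den * r₂.den * r₄.den), r₄.num * (r₁.den * r₂.den * r₃.den), ?_, ?_, ?_, ?_⟩
  · push_cast
    rw [← h1]; ring
  · push_cast
    rw [← h2]; ring
  · push_cast
    rw [← h3]; ring
  · push_cast
    rw [← h4]; ring

lemma approx (L : PeriodPair) {a τ₀ : ℂ} (ha : a ≠ 0) (hτ₀ : 0 < τ₀.im) {P : ℂ × ℂ → Prop}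
    (hP : ∀ᶠ q in 𝓝 (a, τ₀), P q) : ∃ (α τ : ℂ) (N : ℕ), 0 < N ∧ α ≠ 0 ∧ 0 < τ.im ∧ P (α, τ) ∧
      ∀ l ∈ L.lattice, Lat τ (l / (α / N)) := by
  obtain ⟨x₁, x₂, hx⟩ := exists_coords L a
  obtain ⟨x₃, x₄, hx'⟩ := exists_coords L (a * τ₀)
  set A : ℝ × ℝ × ℝ × ℝ → ℂ := fun v => v.1 * L.ω₁ + v.2.1 * L.ω₂ with hA
  set B : ℝ × ℝ × ℝ × ℝ → ℂ := fun v => v.2.2.1 * L.ω₁ + v.2.2.2 * L.ω₂ with hB
  set v₀ : ℝ × ℝ × ℝ × ℝ := (x₁, x₂, x₃, x₄) with hv₀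
  have hA0 : A v₀ = a := by simp only [hA, hv₀]; exact hx.symm
  have hB0 : B v₀ = a * τ₀ := by simp only [hB, hv₀]; exact hx'.symm
  have cA : Continuous A := by fun_prop
  have cB : Continuous B := by fun_prop
  have cQ : ContinuousAt (fun v => (A v, B v / A v)) v₀ :=
    cA.continuousAt.prodMk (cB.continuousAt.div cA.continuousAt (by rw [hA0]; exact ha))
  have hQ0 : (A v₀, B v₀ / A v₀) = (a, τ₀) := by
    rw [hA0, hB0, mul_div_cancel_left₀ _ ha]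
  have hopen : ∀ᶠ q : ℂ × ℂ in 𝓝 (a, τ₀), q.1 ≠ 0 ∧ 0 < q.2.im := by
    have h1 : ∀ᶠ q : ℂ × ℂ in 𝓝 (a, τ₀), q.1 ≠ 0 := continuousAt_fst.eventually_ne ha
    have h2 : ∀ᶠ q : ℂ × ℂ in 𝓝 (a, τ₀), 0 < q.2.im := by
      have : ContinuousAt (fun q : ℂ × ℂ => q.2.im) (a, τ₀) := by fun_prop
      exact this.eventually_const_lt hτ₀
    exact h1.and h2
  rw [← hQ0] at hP hopen
  have hev := cQ.eventually (hP.and hopen)
  have hdense : DenseRange (Prod.map ((↑) : ℚ → ℝ) (Prod.map ((↑) : ℚ → ℝ)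
      (Prod.map ((↑) : ℚ → ℝ) ((↑) : ℚ → ℝ)))) :=
    Rat.denseRange_cast.prodMap (Rat.denseRange_cast.prodMap
      (Rat.denseRange_cast.prodMap Rat.denseRange_cast))
  obtain ⟨q, hv⟩ := hdense.exists_mem_open isOpen_interior
    (s := interior {v | P (A v, B v / A v) ∧ A v ≠ 0 ∧ 0 < (B v / A v).im})
    ⟨v₀, mem_interior_iff_mem_nhds.mpr hev⟩
  obtain ⟨q₁, q₂, q₃, q₄⟩ := q
  obtain ⟨hP1, hA1, hτ1⟩ := interior_subset hv
  simp only [Prod.map_apply] at hP1 hA1 hτ1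
  set α : ℂ := A ((q₁ : ℝ), (q₂ : ℝ), (q₃ : ℝ), (q₄ : ℝ)) with hα
  set β : ℂ := B ((q₁ : ℝ), (q₂ : ℝ), (q₃ : ℝ), (q₄ : ℝ)) with hβ
  have eα : α = q₁ * L.ω₁ + q₂ * L.ω₂ := by simp only [hα, hA]; push_cast; ring
  have eβ : β = q₃ * L.ω₁ + q₄ * L.ω₂ := by simp only [hβ, hB]; push_cast; ring
  set τ : ℂ := β / α with hτdef
  have eβτ : β = α * τ := by rw [hτdef]; field_simp
  set D : ℚ := q₁ * q₄ - q₂ * q₃ with hD
  have hD0 : D ≠ 0 := by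
    intro h0
    have h0' : (q₁ : ℂ) * q₄ - q₂ * q₃ = 0 := by exact_mod_cast h0
    have h1 : α * ((q₁ : ℂ) * τ - q₃) = 0 := by
      have : α * ((q₁ : ℂ) * τ - q₃) = q₁ * β - q₃ * α := by rw [eβτ]; ring
      rw [this, eα, eβ]
      linear_combination L.ω₂ * h0'
    have h2 : α * ((q₂ : ℂ) * τ - q₄) = 0 := by
      have : α * ((q₂ : ℂ) * τ - q₄) = q₂ * β - q₄ * α := by rw [eβτ]; ring
      rw [this, eα, eβ]
      linear_combination (-L.ω₁) * h0'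
    have h3 : (q₁ : ℂ) * τ - q₃ = 0 := (mul_eq_zero.mp h1).resolve_left hA1
    have h4 : (q₂ : ℂ) * τ - q₄ = 0 := (mul_eq_zero.mp h2).resolve_left hA1
    have i3 := congrArg Complex.im h3
    have i4 := congrArg Complex.im h4
    simp at i3 i4
    rcases i3 with i3 | i3
    · rcases i4 with i4 | i4
      · apply hA1
        rw [eα, i3, i4]; simp
      · exact absurd i4 hτ1.ne'
    · exact absurd i3 hτ1.ne'
  have hDc : (D : ℂ) ≠ 0 := by exact_mod_cast hD0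
  have eD : (D : ℂ) = q₁ * q₄ - q₂ * q₃ := by rw [hD]; push_cast; ring
  obtain ⟨N, hN, m₁, m₂, m₃, m₄, e1, e2, e3, e4⟩ := exists_den (q₁ / D) (q₂ / D) (q₃ / D) (q₄ / D)
  have c1 : (N : ℂ) * (q₁ / D) = m₁ := by exact_mod_cast congrArg ((↑) : ℚ → ℂ) e1
  have c2 : (N : ℂ) * (q₂ / D) = m₂ := by exact_mod_cast congrArg ((↑) : ℚ → ℂ) e2
  have c3 : (N : ℂ) * (q₃ / D) = m₃ := by exact_mod_cast congrArg ((↑) : ℚ → ℂ) e3
  have c4 : (N : ℂ) * (q₄ / D) = m₄ := by exact_mod_cast congrArg ((↑) : ℚ → ℂ) e4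
  have hNc : (N : ℂ) ≠ 0 := by exact_mod_cast hN.ne'
  refine ⟨α, τ, N, hN, hA1, hτ1, hP1, ?_⟩
  have w1 : Lat τ (L.ω₁ / (α / N)) := by
    refine ⟨m₄, -m₂, ?_⟩
    push_cast
    rw [← c4, ← c2]
    field_simp
    rw [hτdef]
    field_simp
    rw [eα, eβ, eD]
    ring
  have w2 : Lat τ (L.ω₂ / (α / N)) := by
    refine ⟨-m₃, m₁, ?_⟩
    push_cast
    rw [← c3, ← c1]
    field_simp
    rw [hτdef]
    field_simp
    rw [eα, eβ, eD]
    ring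
  intro l hl
  obtain ⟨m, n, rfl⟩ := (lattice_iff L l).mp hl
  have := (w1.zsmul m).add (w2.zsmul n)
  convert this using 1
  ring

end Pool.Agent.Helper21.K1
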