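import Pool.Agent.Helper21.K1.Rat

/-! # Counting the points of the fibres; the formula for the regulator -/

noncomputable section

namespace Pool.Agent.Helper21.K1

open Complex Filter Topology Set Metric Bornology MeasureTheory
open Pool.Agent.Helper21.Reg
open scoped ComplexConjugate

/-! ### lattice points in the period parallelogram -/

lemma par_eq (L : PeriodPair) : par L = ZSpan.fundamentalDomain L.basis := by
  ext z
  rw [ZSpan.mem_fundamentalDomain]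
  constructor
  · rintro ⟨s, t, hs, ht, rfl⟩
    have e : ((s : ℂ) * L.ω₁ + t * L.ω₂) = s • L.basis 0 + t • L.basis 1 := by
      rw [L.basis_zero, L.basis_one, Complex.real_smul, Complex.real_smul]
    intro i
    rw [e, map_add, map_smul, map_smul, Module.Basis.repr_self, Module.Basis.repr_self]
    fin_cases i
    · simpa using hs
    · simpa using ht
  · intro h
    refine ⟨L.basis.repr z 0, L.basis.repr z 1, h 0, h 1, ?_⟩
    conv_lhs => rw [← L.basis.sum_repr z]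
    rw [Fin.sum_univ_two, L.basis_zero, L.basis_one, Complex.real_smul, Complex.real_smul]

lemma par_bounded (L : PeriodPair) : IsBounded (par L) := by
  rw [par_eq]; exact ZSpan.fundamentalDomain_isBounded _

section
variable {L : PeriodPair} {α τ : ℂ}

lemma finite_lat (hτ : 0 < τ.im) (hα : α ≠ 0) {B : Set ℂ} (hB : IsBounded B) (c : ℂ) :
    ({y | Lat τ ((y - c) / α)} ∩ B).Finite := by
  obtain ⟨R, hR⟩ := hB.exists_norm_le
  set C : ℝ := 1 + (1 + ‖τ‖) / τ.im with hC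
  obtain ⟨N, hN⟩ := exists_nat_ge (C * ((R + ‖c‖) / ‖α‖))
  have hfin : ((fun p : ℤ × ℤ => α * (p.1 + p.2 * τ) + c) ''
      (Icc (-(N : ℤ)) N ×ˢ Icc (-(N : ℤ)) N)).Finite :=
    ((finite_Icc _ _).prod (finite_Icc _ _)).image _
  refine hfin.subset ?_
  rintro y ⟨⟨m, n, h⟩, hy⟩
  refine ⟨(m, n), ?_, ?_⟩
  · have h1 := zt_lower hτ (m : ℝ) (n : ℝ)
    have h2 : ‖(((m : ℝ) : ℂ) + ((n : ℝ) : ℂ) * τ)‖ ≤ (R + ‖c‖) / ‖α‖ := by
      have e : (((m : ℝ) : ℂ) + ((n : ℝ) : ℂ) * τ) = (y - c) / α := by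
        rw [h]; push_cast; ring
      rw [e, norm_div]
      gcongr
      exact (norm_sub_le _ _).trans (by linarith [hR y hy])
    have hC0 : 0 ≤ C := by positivity
    have h3 : ‖(((m : ℝ), (n : ℝ)) : ℝ × ℝ)‖ ≤ N :=
      h1.trans ((mul_le_mul_of_nonneg_left h2 hC0).trans hN)
    rw [Prod.norm_def, max_le_iff, Real.norm_eq_abs, Real.norm_eq_abs, abs_le, abs_le] at h3
    simp only at h3
    simp only [mem_prod, mem_Icc]
    obtain ⟨⟨a1, a2⟩, ⟨a3, a4⟩⟩ := h3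
    refine ⟨⟨?_, ?_⟩, ⟨?_, ?_⟩⟩
    · exact_mod_cast a1
    · exact_mod_cast a2
    · exact_mod_cast a3
    · exact_mod_cast a4
  · simp only
    rw [← h]
    field_simp
    ring

lemma card_le (hτ : 0 < τ.im) (hα : α ≠ 0) (hsup : ∀ l ∈ L.lattice, Lat τ (l / α)) (c c' : ℂ) :
    ({y | Lat τ ((y - c) / α)} ∩ par L).ncard ≤ ({y | Lat τ ((y - c') / α)} ∩ par L).ncard := by
  refine ncard_le_ncard_of_injOn (fun y => ZSpan.fract L.basis (y + (c' - c))) ?_ ?_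
    (finite_lat hτ hα (par_bounded L) c')
  · rintro y ⟨h1, h2⟩
    refine ⟨?_, ?_⟩
    · have h3 : ((ZSpan.floor L.basis (y + (c' - c)) : Submodule.span ℤ (Set.range L.basis)) : ℂ) ∈
          L.lattice := by
        rw [L.lattice_eq_span_range_basis]; exact SetLike.coe_mem _
      have h4 := Lat.sub h1 (hsup _ h3)
      simp only [mem_ofPred_eq]
      convert h4 using 1
      rw [ZSpan.fract_apply]
      ring
    · rw [par_eq]; exact ZSpan.fract_mem_fundamentalDomain _ _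
  · rintro y ⟨h1, h2⟩ y' ⟨h1', h2'⟩ h
    have h3 := (ZSpan.fract_eq_fract L.basis _ _).mp h
    have h4 : -y + y' ∈ Submodule.span ℤ (Set.range L.basis) := by
      convert h3 using 1; ring
    have h5 := (ZSpan.fract_eq_fract L.basis y y').mpr h4
    rw [par_eq] at h2 h2'
    rwa [ZSpan.fract_eq_self.mpr h2, ZSpan.fract_eq_self.mpr h2'] at h5

/-- the number of points of `(c + α (ℤ + ℤ τ))` in the period parallelogram -/
def nn (L : PeriodPair) (α τ : ℂ) : ℕ := ({y | Lat τ ((y - 0) / α)} ∩ par L).ncard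

lemma card_eq (hτ : 0 < τ.im) (hα : α ≠ 0) (hsup : ∀ l ∈ L.lattice, Lat τ (l / α)) (c : ℂ) :
    ({y | Lat τ ((y - c) / α)} ∩ par L).ncard = nn L α τ :=
  le_antisymm (card_le hτ hα hsup c 0) (card_le hτ hα hsup 0 c)

lemma nn_pos (hτ : 0 < τ.im) (hα : α ≠ 0) : 0 < nn L α τ := by
  unfold nn
  rw [ncard_pos (finite_lat hτ hα (par_bounded L) 0)]
  refine ⟨0, ?_, ?_⟩
  · simpa using Lat_zero τ
  · exact ⟨0, 0, by simp, by simp, by simp⟩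

end

/-! ### the fibre -/

section
variable {L₁ L₂ : PeriodPair} {u τ₁ α τ₂ κ₀ : ℂ} (S : Setup L₁ L₂ u τ₁ α τ₂ κ₀)
include S

/-- the generic fibre consists of two cosets -/
lemma fib_eq {x : ℂ} (h0 : F1 u τ₁ x ≠ 0) (h1 : F1 u τ₁ x ≠ rr τ₁)
    (h2 : F1 u τ₁ x ≠ rr τ₁ * rr τ₂ ^ 2) : ∃ y₁ : ℂ,
    fib (F1 u τ₁) (F2 (rr τ₁ * rr τ₂) α τ₂) x =
      {y | Lat τ₂ ((y - y₁) / α)} ∪ {y | Lat τ₂ ((y - -y₁) / α)} ∧
    Disjoint {y | Lat τ₂ ((y - y₁) / α)} {y | Lat τ₂ ((y - -y₁) / α)} := by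
  obtain ⟨z, hz, hzx⟩ := Xf_surj S.hτ₂ (F1 u τ₁ x / (rr τ₁ * rr τ₂))
  have hα := S.hα
  have hs := S.s0
  have hzx' : rr τ₁ * rr τ₂ * Xf τ₂ z = F1 u τ₁ x := by
    rw [hzx, ← mul_div_assoc, mul_div_cancel_left₀ _ hs]
  have hz2 : ¬ Lat τ₂ (2 * z) := by
    intro h
    have hd := deriv_Xf_half S.hτ₂ h
    have ho := ode S.hτ₂ hz
    rw [hd] at ho
    have hne : KK τ₂ * (Xf τ₂ z * (Xf τ₂ z - rr τ₂) * (Xf τ₂ z - pp τ₂)) ≠ 0 := by
      refine mul_ne_zero S.KK2 (mul_ne_zero (mul_ne_zero ?_ (sub_ne_zero.mpr ?_))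
        (sub_ne_zero.mpr ?_))
      · intro h3; apply h0; rw [← hzx', h3, mul_zero]
      · intro h3; apply h2; rw [← hzx', h3]; ring
      · intro h3; apply h1; rw [← hzx', h3, pp_eq S.hτ₂]
        have := S.r2
        field_simp
    apply hne
    rw [← ho]; simp
  refine ⟨α * z, ?_, ?_⟩
  · ext y
    simp only [fib, mem_ofPred_eq, mem_union]
    rw [F2_analyticAt_iff S]
    have e1 : (y - α * z) / α = y / α - z := by field_simp
    have e2 : (y - -(α * z)) / α = y / α + z := by field_simp; ring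
    rw [e1, e2]
    constructor
    · rintro ⟨h3, h4⟩
      rw [← Xf_eq_iff S.hτ₂ hz h3]
      apply mul_left_cancel₀ hs
      rw [hzx', ← h4]
      rfl
    · intro h3
      have h4 : ¬ Lat τ₂ (y / α) := by
        intro h5
        apply hz
        rcases h3 with h3 | h3
        · have := h5.sub h3; simpa using this
        · have := h3.sub h5; simpa using this
      refine ⟨h4, ?_⟩
      rw [← Xf_eq_iff S.hτ₂ hz h4] at h3
      rw [← hzx', ← h3]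
      rfl
  · rw [Set.disjoint_left]
    intro y h3 h4
    apply hz2
    have := Lat.sub h4 h3
    convert this using 1
    field_simp
    ring

lemma fib_card {x : ℂ} (h0 : F1 u τ₁ x ≠ 0) (h1 : F1 u τ₁ x ≠ rr τ₁)
    (h2 : F1 u τ₁ x ≠ rr τ₁ * rr τ₂ ^ 2) :
    (fib (F1 u τ₁) (F2 (rr τ₁ * rr τ₂) α τ₂) x ∩ par L₂).Finite ∧
    (fib (F1 u τ₁) (F2 (rr τ₁ * rr τ₂) α τ₂) x ∩ par L₂).ncard = 2 * nn L₂ α τ₂ := by
  obtain ⟨y₁, hfib, hdis⟩ := fib_eq S h0 h1 h2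
  have f1 := finite_lat S.hτ₂ S.hα (par_bounded L₂) y₁
  have f2 := finite_lat S.hτ₂ S.hα (par_bounded L₂) (-y₁)
  rw [hfib, union_inter_distrib_right]
  refine ⟨f1.union f2, ?_⟩
  rw [ncard_union_eq (hdis.mono inter_subset_left inter_subset_left) f1 f2,
    card_eq S.hτ₂ S.hα S.sup, card_eq S.hτ₂ S.hα S.sup]
  ring

/-- the terms of the sum -/
lemma term_eq {x y : ℂ} (hx : ¬ Lat τ₁ (x / u)) (h0 : F1 u τ₁ x ≠ 0) (h1 : F1 u τ₁ x ≠ rr τ₁)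
    (h3 : F1 u τ₁ x ≠ pp τ₁) (hy : y ∈ fib (F1 u τ₁) (F2 (rr τ₁ * rr τ₂) α τ₂) x) :
    (Real.log ‖GG (u / α * κ₀) (F1 u τ₁) (F2 (rr τ₁ * rr τ₂) α τ₂) x y‖ : ℂ) *
      conj (deriv (F1 u τ₁) x / deriv (F2 (rr τ₁ * rr τ₂) α τ₂) y) =
    conj (u / α * κ₀)⁻¹ *
      gs ((F1 u τ₁ x - rr τ₁ * rr τ₂ ^ 2) / (F1 u τ₁ x - pp τ₁)) := by
  obtain ⟨hy1, hy2⟩ := hy
  have hyl := (F2_analyticAt_iff S y).mp hy1
  have s1 := d1_sq S hx
  have s2 := d2_sq S hyl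
  rw [hy2] at s2
  set f₂ := F2 (rr τ₁ * rr τ₂) α τ₂ with hf₂
  set f₁ := F1 u τ₁ with hf₁
  set κ := u / α * κ₀ with hκ
  have hκ0 : κ ≠ 0 := mul_ne_zero (div_ne_zero S.F.hu S.hα) S.κ_ne
  have hu := S.F.hu
  have hα := S.hα
  have r1 := S.r1
  have r2 := S.r2
  have k1 := S.KK1
  have k2 := S.KK2
  have hd1 : deriv f₁ x ≠ 0 := by
    intro h
    rw [h] at s1
    have : u⁻¹ ^ 2 * KK τ₁ * (f₁ x * (f₁ x - rr τ₁) * (f₁ x - pp τ₁)) ≠ 0 :=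
      mul_ne_zero (mul_ne_zero (pow_ne_zero 2 (inv_ne_zero hu)) k1)
        (mul_ne_zero (mul_ne_zero h0 (sub_ne_zero.mpr h1)) (sub_ne_zero.mpr h3))
    apply this
    rw [← s1]; simp
  set d₁ := deriv f₁ x with hd₁
  set d₂ := deriv f₂ y with hd₂
  set w := d₂ / (κ * d₁) with hw
  have hw2 : w ^ 2 = (f₁ x - rr τ₁ * rr τ₂ ^ 2) / (f₁ x - pp τ₁) := by
    rw [hw, div_pow, mul_pow, s1, s2, hκ, mul_pow, S.hκ]
    have a1 := sub_ne_zero.mpr h1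
    have a3 := sub_ne_zero.mpr h3
    field_simp
  rw [gs_eq hw2]
  unfold gg
  have e1 : GG κ f₁ f₂ x y = (w - 1) / (w + 1) := by
    unfold GG
    rw [← hd₁, ← hd₂]
    have e3 : d₂ = w * (κ * d₁) := by rw [hw]; field_simp
    have e4 : d₂ - κ * d₁ = (w - 1) * (κ * d₁) := by rw [e3]; ring
    have e5 : d₂ + κ * d₁ = (w + 1) * (κ * d₁) := by rw [e3]; ring
    rw [e4, e5, mul_div_mul_right _ _ (mul_ne_zero hκ0 hd1)]
  have e2 : d₁ / d₂ = κ⁻¹ * w⁻¹ := by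
    rw [hw, inv_div]
    field_simp
  rw [e1, e2, map_mul]
  ring

/-- the sum over the fibre -/
lemma sum_eq {x : ℂ} (hx : ¬ Lat τ₁ (x / u)) (h0 : F1 u τ₁ x ≠ 0) (h1 : F1 u τ₁ x ≠ rr τ₁)
    (h3 : F1 u τ₁ x ≠ pp τ₁) (h2 : F1 u τ₁ x ≠ rr τ₁ * rr τ₂ ^ 2) :
    ∑ᶠ y ∈ fib (F1 u τ₁) (F2 (rr τ₁ * rr τ₂) α τ₂) x ∩ par L₂,
      (Real.log ‖GG (u / α * κ₀) (F1 u τ₁) (F2 (rr τ₁ * rr τ₂) α τ₂) x y‖ : ℂ) *
      conj (deriv (F1 u τ₁) x / deriv (F2 (rr τ₁ * rr τ₂) α τ₂) y) =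
    (2 * nn L₂ α τ₂ : ℕ) * (conj (u / α * κ₀)⁻¹ *
      gs ((F1 u τ₁ x - rr τ₁ * rr τ₂ ^ 2) / (F1 u τ₁ x - pp τ₁))) := by
  obtain ⟨hf, hc⟩ := fib_card S h0 h1 h2
  rw [finsum_mem_congr rfl fun y hy => term_eq S hx h0 h1 h3 hy.1,
    finsum_mem_eq_finite_toFinset_sum _ hf, Finset.sum_const, nsmul_eq_mul, ← hc,
    ncard_eq_toFinset_card _ hf]

/-- The `dx ∧ dȳ` component of the regulator. -/
lemma H12_eq : (realReg L₁ L₂ (F1 u τ₁) (F2 (rr τ₁ * rr τ₂) α τ₂)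
      (GG (u / α * κ₀) (F1 u τ₁) (F2 (rr τ₁ * rr τ₂) α τ₂))).2.2 =
    (area L₁ * (2 * nn L₂ α τ₂ : ℕ) : ℝ) * (conj (u / α * κ₀)⁻¹ *
      Phi τ₁ (pp τ₁) (rr τ₁ * rr τ₂ ^ 2)) := by
  unfold realReg intZ intE
  simp only
  set FF : ℂ → ℂ := fun x => ∑ᶠ y ∈ fib (F1 u τ₁) (F2 (rr τ₁ * rr τ₂) α τ₂) x ∩ par L₂,
      (Real.log ‖GG (u / α * κ₀) (F1 u τ₁) (F2 (rr τ₁ * rr τ₂) α τ₂) x y‖ : ℂ) *
      conj (deriv (F1 u τ₁) x / deriv (F2 (rr τ₁ * rr τ₂) α τ₂) y) with hFF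
  have hper : ∀ l ∈ L₁.lattice, ∀ z, FF (z + l) = FF z := by
    intro l hl z
    have hp := (ell_F1 S).periodic l hl
    simp only [hFF, fib, GG, hp z, deriv_periodic hp z]
  have key := S.F.hint FF hper
  rw [key]
  have e : ∀ᵐ p ∂(nu.prod nu), FF (u * zt τ₁ p) =
      (2 * nn L₂ α τ₂ : ℕ) * (conj (u / α * κ₀)⁻¹ * gs (uu τ₁ (pp τ₁) (rr τ₁ * rr τ₂ ^ 2) p)) := by
    filter_upwards [ae_not_lat0 S.F.hτ, ae_XX_ne S.F.hτ 0, ae_XX_ne S.F.hτ (rr τ₁),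
      ae_XX_ne S.F.hτ (pp τ₁), ae_XX_ne S.F.hτ (rr τ₁ * rr τ₂ ^ 2)] with p hl a0 a1 a2 a3
    have e0 : u * zt τ₁ p / u = zt τ₁ p := mul_div_cancel_left₀ _ S.F.hu
    have e1 : F1 u τ₁ (u * zt τ₁ p) = XX τ₁ p := by
      unfold F1 XX
      rw [sc_apply, e0]
    have hs := sum_eq S (x := u * zt τ₁ p) (by rwa [e0]) (by rwa [e1]) (by rwa [e1])
      (by rwa [e1]) (by rwa [e1])
    simp only [hFF]
    rw [hs, e1]
    rfl
  rw [integral_congr_ae e, integral_const_mul, integral_const_mul]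
  unfold Phi area
  push_cast
  ring

end

end Pool.Agent.Helper21.K1
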