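import Pool.Agent.Helper21.Reg.Defs

/-!
# `CH²(E₁ × E₂, 1)` of a product of two elliptic curves and its real regulator: definitions

`L₁`, `L₂` are pairs of periods, `Eᵢ = ℂ / Lᵢ.lattice` and `X = E₁ × E₂`.  The curves on `X` that are
used are the fibre products `Z = {(x, y) : f₁(x) = f₂(y)}` of `E₁` and `E₂` over `ℙ¹` with respect to
nonconstant rational functions `f₁` on `E₁` and `f₂` on `E₂`, and the rational functions on `Z` that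
are used are restrictions of rational functions `G` on `X`.
-/

noncomputable section

namespace Pool.Agent.Helper21.K1

open Complex Filter Topology Set Metric
open scoped ComplexConjugate
open Pool.Agent.Helper21.Reg

/-- `P(x, y) = ∑ g(x) h(y)`, a finite sum with rational functions `g` on `E₁` and `h` on `E₂`. -/
def IsBiElliptic (L₁ L₂ : PeriodPair) (P : ℂ → ℂ → ℂ) : Prop :=
  ∃ l : List ((ℂ → ℂ) × (ℂ → ℂ)), (∀ t ∈ l, IsElliptic L₁ t.1 ∧ IsElliptic L₂ t.2) ∧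
    ∀ x y, P x y = (l.map fun t => t.1 x * t.2 y).sum

/-- `G` is a rational function on `E₁ × E₂`: a quotient of two functions as above. -/
def IsRational (L₁ L₂ : PeriodPair) (G : ℂ → ℂ → ℂ) : Prop :=
  ∃ P Q : ℂ → ℂ → ℂ, IsBiElliptic L₁ L₂ P ∧ IsBiElliptic L₁ L₂ Q ∧ ∀ x y, G x y = P x y / Q x y

/-- The points `y` for which `(x, y)` lies on the curve `Z : f₁(x) = f₂(y)`. -/
def fib (f₁ f₂ : ℂ → ℂ) (x : ℂ) : Set ℂ := {y | AnalyticAt ℂ f₂ y ∧ f₂ y = f₁ x}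

/-- `(Z, G|_Z)`, with `Z : f₁(x) = f₂(y)` and `G` a rational function on `E₁ × E₂`, is a cycle
representing a class in `CH²(E₁ × E₂, 1)`: the divisor of `G|_Z` on (the normalisation of) `Z` has
trivial push forward to `E₁ × E₂`.  Its coefficient at `(x₀, y₀)` is the order at `x₀` of the local
norm `x ↦ ∏ G(x, y)`, the product over the points `(x, y)` of `Z` with `y` near `y₀`, so the condition
is that this local norm has a finite and nonzero limit as `x → x₀`. -/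
structure IsK1 (L₁ L₂ : PeriodPair) (f₁ f₂ : ℂ → ℂ) (G : ℂ → ℂ → ℂ) : Prop where
  elliptic₁ : IsElliptic L₁ f₁
  elliptic₂ : IsElliptic L₂ f₂
  nonconst₁ : ∀ c : ℂ, ¬ f₁ =ᶠ[𝓝[≠] 0] fun _ => c
  nonconst₂ : ∀ c : ℂ, ¬ f₂ =ᶠ[𝓝[≠] 0] fun _ => c
  rational : IsRational L₁ L₂ G
  cycle : ∀ x₀ y₀ : ℂ, ∀ᶠ δ in 𝓝[>] (0 : ℝ), ∃ c : ℂ, c ≠ 0 ∧
    Tendsto (fun x => ∏ᶠ y ∈ fib f₁ f₂ x ∩ ball y₀ δ, G x y) (𝓝[≠] x₀) (𝓝 c)

/-- The half open period parallelogram of `L`. -/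
def par (L : PeriodPair) : Set ℂ :=
  {z | ∃ s t : ℝ, s ∈ Ico (0 : ℝ) 1 ∧ t ∈ Ico (0 : ℝ) 1 ∧ z = s * L.ω₁ + t * L.ω₂}

/-- `∫_Z log|G| · ρ · dA(x)`, the integral over `x ∈ E₁` of the sum over the points of `Z` above `x`,
where `dA` is Lebesgue measure. -/
def intZ (L₁ L₂ : PeriodPair) (f₁ f₂ : ℂ → ℂ) (G ρ : ℂ → ℂ → ℂ) : ℂ :=
  intE L₁ fun x => ∑ᶠ y ∈ fib f₁ f₂ x ∩ par L₂, (Real.log ‖G x y‖ : ℂ) * ρ x y

/-- The real regulator of `(Z, G)` as an element of `ℝ × ℝ × ℂ ≅ H^{1,1}(E₁ × E₂, ℝ(1))^∨`: the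
integrals over `Z` of `log|G|` times `dx ∧ dx̄`, `dy ∧ dȳ` and `dx ∧ dȳ`, divided by the constant
`-2i`.  On `Z` one has `dy/dx = f₁'(x) / f₂'(y)`. -/
def realReg (L₁ L₂ : PeriodPair) (f₁ f₂ : ℂ → ℂ) (G : ℂ → ℂ → ℂ) : ℝ × ℝ × ℂ :=
  ((intZ L₁ L₂ f₁ f₂ G fun _ _ => 1).re,
   (intZ L₁ L₂ f₁ f₂ G fun x y => (‖deriv f₁ x / deriv f₂ y‖ ^ 2 : ℝ)).re,
   intZ L₁ L₂ f₁ f₂ G fun x y => conj (deriv f₁ x / deriv f₂ y))

/-- The area of the period parallelogram. -/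
def area (L : PeriodPair) : ℝ := |(conj L.ω₁ * L.ω₂).im|

/-- Real regulators of classes in `CH²(E₁ × E₂, 1)`: those of the cycles `(Z, G)` above, and those of
the decomposable classes given by a constant `a ≠ 0` on `E₁ × {pt}` or on `{pt} × E₂`. -/
inductive IsRegValue (L₁ L₂ : PeriodPair) : ℝ × ℝ × ℂ → Prop
  | indec (f₁ f₂ : ℂ → ℂ) (G : ℂ → ℂ → ℂ) (h : IsK1 L₁ L₂ f₁ f₂ G) :
      IsRegValue L₁ L₂ (realReg L₁ L₂ f₁ f₂ G)
  | horizontal (a : ℂ) (ha : a ≠ 0) : IsRegValue L₁ L₂ (area L₁ * Real.log ‖a‖, 0, 0)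
  | vertical (a : ℂ) (ha : a ≠ 0) : IsRegValue L₁ L₂ (0, area L₂ * Real.log ‖a‖, 0)

end Pool.Agent.Helper21.K1
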