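import Pool.Agent.Helper21.K1.Phi2
import Pool.Agent.Helper21.K1.Defs

/-! # The cycles on `E₁ × E₂` -/

noncomputable section

namespace Pool.Agent.Helper21.K1

open Complex Filter Topology Set Metric Bornology
open Pool.Agent.Helper21.Reg
open scoped ComplexConjugate

/-- the data: a frame `(u, τ₁)` of `L₁` and a lattice `α (ℤ + ℤ τ₂)` containing `L₂.lattice`. -/
structure Setup (L₁ L₂ : PeriodPair) (u τ₁ α τ₂ κ₀ : ℂ) : Prop where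
  F : Frame L₁ u τ₁
  hτ₂ : 0 < τ₂.im
  hα : α ≠ 0
  sup : ∀ l ∈ L₂.lattice, Lat τ₂ (l / α)
  hκ : κ₀ ^ 2 = KK τ₂ / (rr τ₁ * rr τ₂ * KK τ₁)
  hne : (rr τ₁ * rr τ₂) ^ 2 ≠ 1

/-- the function `f₁` on `E₁` -/
def F1 (u τ₁ : ℂ) : ℂ → ℂ := sc u (Xf τ₁)

/-- the function `f₂` on `E₂` -/
def F2 (s α τ₂ : ℂ) : ℂ → ℂ := fun y => s * sc α (Xf τ₂) y

/-- the rational function `G` -/
def GG (κ : ℂ) (f₁ f₂ : ℂ → ℂ) (x y : ℂ) : ℂ :=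
  (deriv f₂ y - κ * deriv f₁ x) / (deriv f₂ y + κ * deriv f₁ x)

section
variable {τ : ℂ} (hτ : 0 < τ.im)
include hτ

lemma ev_Th (D z₀ : ℂ) : ∀ᶠ z in 𝓝[≠] z₀, ¬ Lat τ (z - D) := by
  classical
  have := (meromorphicOrderAt_ne_top_iff_eventually_ne_zero
    (Th_sub_analyticAt hτ D z₀).meromorphicAt).mp (by rw [Th_sub_order hτ]; split_ifs <;> simp)
  filter_upwards [this] with z hz
  rwa [← Th_eq_zero_iff hτ]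

lemma ev_Xf (v z₀ : ℂ) : ∀ᶠ z in 𝓝[≠] z₀, ¬ Lat τ z ∧ Xf τ z ≠ v := by
  obtain ⟨D, hD, rfl⟩ := Xf_surj hτ v
  filter_upwards [ev_Th hτ 0 z₀, ev_Th hτ D z₀, ev_Th hτ (-D) z₀] with z h0 h1 h2
  rw [sub_zero] at h0
  refine ⟨h0, ?_⟩
  rw [Ne, Xf_eq_iff hτ hD h0]
  rw [sub_neg_eq_add] at h2
  tauto

omit hτ in
lemma tendsto_div_u {u : ℂ} (hu : u ≠ 0) (x₀ : ℂ) :
    Tendsto (fun x => x / u) (𝓝[≠] x₀) (𝓝[≠] (x₀ / u)) := by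
  refine tendsto_nhdsWithin_iff.mpr ⟨?_, ?_⟩
  · exact tendsto_nhdsWithin_of_tendsto_nhds (Continuous.tendsto (by fun_prop) x₀)
  · filter_upwards [self_mem_nhdsWithin] with y hy
    intro h
    apply hy
    have h' : y / u = x₀ / u := h
    field_simp at h'
    exact h'

lemma ev_sc {u : ℂ} (hu : u ≠ 0) (v x₀ : ℂ) :
    ∀ᶠ x in 𝓝[≠] x₀, ¬ Lat τ (x / u) ∧ sc u (Xf τ) x ≠ v :=
  (tendsto_div_u hu x₀).eventually (ev_Xf hτ v (x₀ / u))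

lemma sc_Xf_analyticAt {u x : ℂ} (hx : ¬ Lat τ (x / u)) : AnalyticAt ℂ (sc u (Xf τ)) x := by
  have h := Xf_analyticAt hτ hx
  exact AnalyticAt.comp (g := Xf τ) (f := fun z => z / u) h (analyticAt_div u x)

omit hτ in
lemma deriv_sc (u : ℂ) (f : ℂ → ℂ) (z : ℂ) : deriv (sc u f) z = u⁻¹ * deriv f (z / u) := by
  have h := deriv_comp_mul_left (u⁻¹) f z
  have e : sc u f = fun z => f (u⁻¹ * z) := by
    funext w; rw [sc_apply]; congr 1; rw [div_eq_mul_inv, mul_comm]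
  rw [e, h, smul_eq_mul, show z / u = u⁻¹ * z by rw [div_eq_mul_inv, mul_comm]]

lemma not_lat_of_analytic {u x : ℂ} (hu : u ≠ 0) (h : AnalyticAt ℂ (sc u (Xf τ)) x) :
    ¬ Lat τ (x / u) := by
  intro hl
  have h1 := h.meromorphicOrderAt_nonneg
  rw [sc_order hu, Xf_order_pole hτ hl] at h1
  have : (0 : ℤ) ≤ -2 := by exact_mod_cast h1
  omega

end

section
variable {L₁ L₂ : PeriodPair} {u τ₁ α τ₂ κ₀ : ℂ} (S : Setup L₁ L₂ u τ₁ α τ₂ κ₀)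
include S

lemma Setup.r1 : rr τ₁ ≠ 0 := rr_ne_zero S.F.hτ
lemma Setup.r2 : rr τ₂ ≠ 0 := rr_ne_zero S.hτ₂
lemma Setup.s0 : rr τ₁ * rr τ₂ ≠ 0 := mul_ne_zero S.r1 S.r2
lemma Setup.KK1 : KK τ₁ ≠ 0 := KK_ne_zero S.F.hτ
lemma Setup.KK2 : KK τ₂ ≠ 0 := KK_ne_zero S.hτ₂

lemma Setup.κ_ne : κ₀ ≠ 0 := by
  intro h
  have := S.hκ
  rw [h] at this
  have h2 : KK τ₂ / (rr τ₁ * rr τ₂ * KK τ₁) ≠ 0 := div_ne_zero S.KK2 (mul_ne_zero S.s0 S.KK1)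
  apply h2
  rw [← this]
  simp

lemma Setup.lam_ne : pp τ₁ ≠ rr τ₁ * rr τ₂ ^ 2 := by
  rw [pp_eq S.F.hτ]
  intro h
  apply S.hne
  have h1 := S.r1
  field_simp at h
  rw [mul_pow]
  exact h.symm

lemma F2_analyticAt_iff (y : ℂ) :
    AnalyticAt ℂ (F2 (rr τ₁ * rr τ₂) α τ₂) y ↔ ¬ Lat τ₂ (y / α) := by
  constructor
  · intro h
    apply not_lat_of_analytic S.hτ₂ S.hα
    have h2 : AnalyticAt ℂ (fun y => (rr τ₁ * rr τ₂)⁻¹ * F2 (rr τ₁ * rr τ₂) α τ₂ y) y :=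
      analyticAt_const.mul h
    have e : (fun y => (rr τ₁ * rr τ₂)⁻¹ * F2 (rr τ₁ * rr τ₂) α τ₂ y) = sc α (Xf τ₂) := by
      funext y
      unfold F2
      rw [inv_mul_cancel_left₀ S.s0]
    rwa [e] at h2
  · intro h
    exact analyticAt_const.mul (sc_Xf_analyticAt S.hτ₂ h)

omit S in
lemma deriv_F1 (x : ℂ) : deriv (F1 u τ₁) x = u⁻¹ * deriv (Xf τ₁) (x / u) := deriv_sc _ _ _

omit S in
lemma deriv_F2 (y : ℂ) : deriv (F2 (rr τ₁ * rr τ₂) α τ₂) y =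
    rr τ₁ * rr τ₂ * (α⁻¹ * deriv (Xf τ₂) (y / α)) := by
  unfold F2
  rw [deriv_const_mul_field, deriv_sc]

lemma d1_sq {x : ℂ} (hx : ¬ Lat τ₁ (x / u)) : deriv (F1 u τ₁) x ^ 2 =
    u⁻¹ ^ 2 * KK τ₁ * (F1 u τ₁ x * (F1 u τ₁ x - rr τ₁) * (F1 u τ₁ x - pp τ₁)) := by
  rw [deriv_F1, mul_pow, ode S.F.hτ hx]
  unfold F1
  rw [sc_apply]
  ring

lemma d2_sq {y : ℂ} (hy : ¬ Lat τ₂ (y / α)) : deriv (F2 (rr τ₁ * rr τ₂) α τ₂) y ^ 2 =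
    α⁻¹ ^ 2 * (KK τ₂ / (rr τ₁ * rr τ₂)) * (F2 (rr τ₁ * rr τ₂) α τ₂ y *
      (F2 (rr τ₁ * rr τ₂) α τ₂ y - rr τ₁ * rr τ₂ ^ 2) * (F2 (rr τ₁ * rr τ₂) α τ₂ y - rr τ₁)) := by
  rw [deriv_F2, mul_pow, mul_pow, mul_pow, ode S.hτ₂ hy, pp_eq S.hτ₂]
  unfold F2
  rw [sc_apply]
  have h1 := S.r1
  have h2 := S.r2
  field_simp

/-- the discriminant -/
lemma disc {x y : ℂ} (hx : ¬ Lat τ₁ (x / u)) (hy : ¬ Lat τ₂ (y / α))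
    (h : F2 (rr τ₁ * rr τ₂) α τ₂ y = F1 u τ₁ x) :
    deriv (F2 (rr τ₁ * rr τ₂) α τ₂) y ^ 2 - (u / α * κ₀) ^ 2 * deriv (F1 u τ₁) x ^ 2 =
      α⁻¹ ^ 2 * (KK τ₂ / (rr τ₁ * rr τ₂)) * (F1 u τ₁ x * (F1 u τ₁ x - rr τ₁) *
        (pp τ₁ - rr τ₁ * rr τ₂ ^ 2)) := by
  rw [d1_sq S hx, d2_sq S hy, h, mul_pow, S.hκ]
  have h1 := S.r1
  have h2 := S.r2
  have h3 := S.KK1
  have h4 := S.F.hu
  have h5 := S.hα
  field_simp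
  ring

lemma disc_ne {x y : ℂ} (hx : ¬ Lat τ₁ (x / u)) (hy : ¬ Lat τ₂ (y / α))
    (h : F2 (rr τ₁ * rr τ₂) α τ₂ y = F1 u τ₁ x) (h0 : F1 u τ₁ x ≠ 0) (h1 : F1 u τ₁ x ≠ rr τ₁) :
    deriv (F2 (rr τ₁ * rr τ₂) α τ₂) y - (u / α * κ₀) * deriv (F1 u τ₁) x ≠ 0 ∧
      deriv (F2 (rr τ₁ * rr τ₂) α τ₂) y + (u / α * κ₀) * deriv (F1 u τ₁) x ≠ 0 := by
  have hd := disc S hx hy h
  have hne : α⁻¹ ^ 2 * (KK τ₂ / (rr τ₁ * rr τ₂)) * (F1 u τ₁ x * (F1 u τ₁ x - rr τ₁) *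
        (pp τ₁ - rr τ₁ * rr τ₂ ^ 2)) ≠ 0 :=
    mul_ne_zero (mul_ne_zero (pow_ne_zero 2 (inv_ne_zero S.hα)) (div_ne_zero S.KK2 S.s0))
      (mul_ne_zero (mul_ne_zero h0 (sub_ne_zero.mpr h1)) (sub_ne_zero.mpr S.lam_ne))
  rw [← hd] at hne
  constructor
  · intro h2
    apply hne
    have : deriv (F2 (rr τ₁ * rr τ₂) α τ₂) y = (u / α * κ₀) * deriv (F1 u τ₁) x :=
      sub_eq_zero.mp h2
    rw [this]; ring
  · intro h2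
    apply hne
    have : deriv (F2 (rr τ₁ * rr τ₂) α τ₂) y = -((u / α * κ₀) * deriv (F1 u τ₁) x) :=
      eq_neg_of_add_eq_zero_left h2
    rw [this]; ring

omit S in
/-- product over a set with a fixed point free involution inverting the function -/
lemma finprod_involution {A : Set ℂ} {g : ℂ → ℂ} (σ : ℂ → ℂ) (h1 : ∀ y ∈ A, σ y ∈ A)
    (h2 : ∀ y ∈ A, σ (σ y) = y) (h3 : ∀ y ∈ A, σ y ≠ y) (h4 : ∀ y ∈ A, g y * g (σ y) = 1) :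
    ∏ᶠ y ∈ A, g y = 1 := by
  by_cases hf : (A ∩ Function.mulSupport g).Finite
  · rw [finprod_mem_eq_prod g hf]
    refine Finset.prod_involution (fun a _ => σ a) ?_ ?_ ?_ ?_
    · intro a ha
      exact h4 a (hf.mem_toFinset.mp ha).1
    · intro a ha _
      exact h3 a (hf.mem_toFinset.mp ha).1
    · intro a ha
      obtain ⟨ha1, ha2⟩ := hf.mem_toFinset.mp ha
      rw [hf.mem_toFinset]
      refine ⟨h1 a ha1, ?_⟩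
      rw [Function.mem_mulSupport] at ha2 ⊢
      intro h5
      apply ha2
      have := h4 a ha1
      rwa [h5, mul_one] at this
    · intro a ha
      exact h2 a (hf.mem_toFinset.mp ha).1
  · exact finprod_mem_eq_one_of_infinite hf

lemma F2_reflect {y₀ : ℂ} (h : Lat τ₂ (2 * y₀ / α)) (y : ℂ) :
    F2 (rr τ₁ * rr τ₂) α τ₂ (2 * y₀ - y) = F2 (rr τ₁ * rr τ₂) α τ₂ y := by
  unfold F2
  congr 1
  rw [sc_apply, sc_apply, ← Xf_neg S.hτ₂ (y / α)]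
  refine (NEll_Xf S.hτ₂).eq_of_lat ?_
  convert h using 1
  ring

lemma deriv_F2_reflect {y₀ : ℂ} (h : Lat τ₂ (2 * y₀ / α)) (y : ℂ) :
    deriv (F2 (rr τ₁ * rr τ₂) α τ₂) (2 * y₀ - y) = -deriv (F2 (rr τ₁ * rr τ₂) α τ₂) y := by
  have h3 := deriv_comp_const_sub (f := F2 (rr τ₁ * rr τ₂) α τ₂) (2 * y₀) y
  have e : (fun w => F2 (rr τ₁ * rr τ₂) α τ₂ (2 * y₀ - w)) = F2 (rr τ₁ * rr τ₂) α τ₂ :=
    funext fun w => F2_reflect S h w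
  rw [e] at h3
  rw [h3, neg_neg]

/-- Case A: `y₀` is a half period -/
lemma cycle_half {x₀ y₀ : ℂ} (h : Lat τ₂ (2 * y₀ / α)) (δ : ℝ) :
    Tendsto (fun x => ∏ᶠ y ∈ fib (F1 u τ₁) (F2 (rr τ₁ * rr τ₂) α τ₂) x ∩ ball y₀ δ,
      GG (u / α * κ₀) (F1 u τ₁) (F2 (rr τ₁ * rr τ₂) α τ₂) x y) (𝓝[≠] x₀) (𝓝 1) := by
  refine Tendsto.congr' ?_ tendsto_const_nhds
  filter_upwards [ev_sc S.F.hτ S.F.hu 0 x₀, ev_sc S.F.hτ S.F.hu (rr τ₁) x₀,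
    ev_sc S.F.hτ S.F.hu (F2 (rr τ₁ * rr τ₂) α τ₂ y₀) x₀] with x h0 h1 h2
  symm
  refine finprod_involution (fun y => 2 * y₀ - y) ?_ ?_ ?_ ?_
  · rintro y ⟨⟨hy1, hy2⟩, hy3⟩
    refine ⟨⟨?_, ?_⟩, ?_⟩
    · have h5 : AnalyticAt ℂ (F2 (rr τ₁ * rr τ₂) α τ₂ ∘ fun w => 2 * y₀ - w) (2 * y₀ - y) := by
        refine AnalyticAt.comp (g := F2 (rr τ₁ * rr τ₂) α τ₂) (f := fun w => 2 * y₀ - w) ?_ ?_
        · simpa using hy1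
        · fun_prop
      have e : (F2 (rr τ₁ * rr τ₂) α τ₂ ∘ fun w => 2 * y₀ - w) = F2 (rr τ₁ * rr τ₂) α τ₂ :=
        funext fun w => F2_reflect S h w
      rwa [e] at h5
    · rw [F2_reflect S h]; exact hy2
    · rw [mem_ball, dist_eq_norm] at hy3 ⊢
      rw [show 2 * y₀ - y - y₀ = -(y - y₀) by ring, norm_neg]
      exact hy3
  · intro y _
    ring
  · rintro y ⟨⟨hy1, hy2⟩, hy3⟩ h5
    have : y = y₀ := by linear_combination (-1 / 2 : ℂ) * h5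
    rw [this] at hy2
    exact h2.2 hy2.symm
  · rintro y ⟨⟨hy1, hy2⟩, hy3⟩
    have hy : ¬ Lat τ₂ (y / α) := (F2_analyticAt_iff S y).mp hy1
    obtain ⟨n1, n2⟩ := disc_ne S h0.1 hy hy2 h0.2 h1.2
    unfold GG
    rw [deriv_F2_reflect S h]
    have n3 : -deriv (F2 (rr τ₁ * rr τ₂) α τ₂) y + (u / α * κ₀) * deriv (F1 u τ₁) x ≠ 0 := by
      intro h5; apply n1; linear_combination -h5
    rw [div_mul_div_comm, div_eq_one_iff_eq (mul_ne_zero n2 n3)]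
    ring

omit S in
lemma ev_ball {P : ℂ → Prop} {y₀ : ℂ} (h : ∀ᶠ y in 𝓝 y₀, P y) :
    ∀ᶠ δ in 𝓝[>] (0 : ℝ), ∀ y ∈ ball y₀ δ, P y := by
  obtain ⟨ε, hε, hball⟩ := Metric.eventually_nhds_iff_ball.mp h
  filter_upwards [Ioo_mem_nhdsGT hε] with δ hδ y hy
  exact hball y (ball_subset_ball hδ.2.le hy)

/-- Case B2: the fibre stays away from `y₀`. -/
lemma cycle_away {x₀ y₀ : ℂ} (hy : ¬ Lat τ₂ (y₀ / α)) {ε : ℝ} (hε : 0 < ε)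
    (h : ∀ᶠ x in 𝓝[≠] x₀, ε < ‖F1 u τ₁ x - F2 (rr τ₁ * rr τ₂) α τ₂ y₀‖) :
    ∀ᶠ δ in 𝓝[>] (0 : ℝ),
    Tendsto (fun x => ∏ᶠ y ∈ fib (F1 u τ₁) (F2 (rr τ₁ * rr τ₂) α τ₂) x ∩ ball y₀ δ,
      GG (u / α * κ₀) (F1 u τ₁) (F2 (rr τ₁ * rr τ₂) α τ₂) x y) (𝓝[≠] x₀) (𝓝 1) := by
  have hc : ContinuousAt (F2 (rr τ₁ * rr τ₂) α τ₂) y₀ :=
    ((F2_analyticAt_iff S y₀).mpr hy).continuousAt
  have h1 : ∀ᶠ y in 𝓝 y₀, ‖F2 (rr τ₁ * rr τ₂) α τ₂ y - F2 (rr τ₁ * rr τ₂) α τ₂ y₀‖ < ε := by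
    have := Metric.continuousAt_iff'.mp hc ε hε
    simpa [dist_eq_norm] using this
  filter_upwards [ev_ball h1] with δ hδ
  refine Tendsto.congr' ?_ tendsto_const_nhds
  filter_upwards [h] with x hx
  have : fib (F1 u τ₁) (F2 (rr τ₁ * rr τ₂) α τ₂) x ∩ ball y₀ δ = ∅ := by
    rw [eq_empty_iff_forall_notMem]
    rintro y ⟨⟨_, hy2⟩, hy3⟩
    have h2 := hδ y hy3
    rw [hy2] at h2
    linarith
  rw [this, finprod_mem_empty]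

/-- Case B1: a single branch on which `G` is a unit. -/
lemma cycle_branch {x₀ y₀ : ℂ} (hx : ¬ Lat τ₁ (x₀ / u)) (hy : ¬ Lat τ₂ (2 * y₀ / α))
    (h : F2 (rr τ₁ * rr τ₂) α τ₂ y₀ = F1 u τ₁ x₀) :
    ∀ᶠ δ in 𝓝[>] (0 : ℝ), ∃ c : ℂ, c ≠ 0 ∧
    Tendsto (fun x => ∏ᶠ y ∈ fib (F1 u τ₁) (F2 (rr τ₁ * rr τ₂) α τ₂) x ∩ ball y₀ δ,
      GG (u / α * κ₀) (F1 u τ₁) (F2 (rr τ₁ * rr τ₂) α τ₂) x y) (𝓝[≠] x₀) (𝓝 c) := by
  set f₂ := F2 (rr τ₁ * rr τ₂) α τ₂ with hf₂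
  set f₁ := F1 u τ₁ with hf₁
  set κ := u / α * κ₀ with hκ
  have hy1 : ¬ Lat τ₂ (y₀ / α) := by
    intro h1
    apply hy
    have := h1.add h1
    convert this using 1; ring
  -- the value is not a branch value
  have half : ∀ D : ℂ, ¬ Lat τ₂ D → Lat τ₂ (2 * D) → Xf τ₂ (y₀ / α) ≠ Xf τ₂ D := by
    intro D hD hD2 h1
    rw [Xf_eq_iff S.hτ₂ hD hy1] at h1
    apply hy
    rcases h1 with h1 | h1
    · have := (h1.add h1).add hD2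
      convert this using 1; ring
    · have := (h1.add h1).sub hD2
      convert this using 1; ring
  have e2 : f₂ y₀ = rr τ₁ * rr τ₂ * Xf τ₂ (y₀ / α) := rfl
  have v0 : f₁ x₀ ≠ 0 := by
    rw [← h, e2]
    refine mul_ne_zero S.s0 ?_
    rw [← Xf_half S.hτ₂]
    exact half _ (not_lat_oneHalf S.hτ₂) ⟨1, 0, by simp⟩
  have v1 : f₁ x₀ ≠ rr τ₁ := by
    rw [← h, e2]
    intro h1
    refine half (τ₂ / 2) (not_lat_half S.hτ₂) ⟨0, 1, by push_cast; ring⟩ ?_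
    change Xf τ₂ (y₀ / α) = pp τ₂
    rw [pp_eq S.hτ₂]
    have r1 := S.r1
    have r2 := S.r2
    field_simp
    apply mul_left_cancel₀ r1
    linear_combination h1
  have v2 : f₂ y₀ ≠ rr τ₁ * rr τ₂ ^ 2 := by
    rw [e2]
    intro h1
    refine half ((1 + τ₂) / 2) (not_lat_r S.hτ₂) ⟨1, 1, by push_cast; ring⟩ ?_
    change Xf τ₂ (y₀ / α) = rr τ₂
    apply mul_left_cancel₀ S.s0
    linear_combination h1
  obtain ⟨n1, n2⟩ := disc_ne S hx hy1 h v0 v1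
  have ha2 : AnalyticAt ℂ f₂ y₀ := (F2_analyticAt_iff S y₀).mpr hy1
  have ha1 : AnalyticAt ℂ f₁ x₀ := sc_Xf_analyticAt S.F.hτ hx
  have hd2 : deriv f₂ y₀ ≠ 0 := by
    intro h1
    have := d2_sq S hy1
    rw [← hf₂, h1] at this
    have h3 : α⁻¹ ^ 2 * (KK τ₂ / (rr τ₁ * rr τ₂)) * (f₂ y₀ *
      (f₂ y₀ - rr τ₁ * rr τ₂ ^ 2) * (f₂ y₀ - rr τ₁)) ≠ 0 := by
      refine mul_ne_zero (mul_ne_zero (pow_ne_zero 2 (inv_ne_zero S.hα)) (div_ne_zero S.KK2 S.s0))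
        (mul_ne_zero (mul_ne_zero ?_ (sub_ne_zero.mpr v2)) (sub_ne_zero.mpr ?_))
      · rw [h]; exact v0
      · rw [h]; exact v1
    apply h3
    rw [← this]
    simp
  have hst : HasStrictFDerivAt f₂
      (ContinuousLinearEquiv.unitsEquivAut ℂ (Units.mk0 _ hd2) : ℂ →L[ℂ] ℂ) y₀ :=
    ha2.hasStrictDerivAt.hasStrictFDerivAt_equiv hd2
  set g := hst.localInverse f₂ _ y₀ with hg
  have g1 : ∀ᶠ y in 𝓝 y₀, g (f₂ y) = y := hst.eventually_left_inverse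
  have g2 : ∀ᶠ X in 𝓝 (f₂ y₀), f₂ (g X) = X := hst.eventually_right_inverse
  have g3 : Tendsto g (𝓝 (f₂ y₀)) (𝓝 y₀) := hst.localInverse_tendsto
  have ha2' : ∀ᶠ y in 𝓝 y₀, AnalyticAt ℂ f₂ y := ha2.eventually_analyticAt
  have t1 : Tendsto f₁ (𝓝 x₀) (𝓝 (f₂ y₀)) := by rw [h]; exact ha1.continuousAt
  have hpos : ∀ᶠ δ in 𝓝[>] (0 : ℝ), 0 < δ := self_mem_nhdsWithin
  filter_upwards [ev_ball g1, ev_ball ha2', hpos] with δ d1 d2 d3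
  refine ⟨GG κ f₁ f₂ x₀ y₀, div_ne_zero n1 n2, ?_⟩
  have key : ∀ᶠ x in 𝓝 x₀, fib f₁ f₂ x ∩ ball y₀ δ = {g (f₁ x)} := by
    filter_upwards [t1.eventually g2, (g3.comp t1).eventually (ball_mem_nhds y₀ d3)] with x hx1 hx2
    ext y
    rw [mem_singleton_iff]
    constructor
    · rintro ⟨⟨_, hy2⟩, hy3⟩
      rw [← hy2, d1 y hy3]
    · rintro rfl
      exact ⟨⟨d2 _ hx2, hx1⟩, hx2⟩
  have hlim : Tendsto (fun x => GG κ f₁ f₂ x (g (f₁ x))) (𝓝 x₀) (𝓝 (GG κ f₁ f₂ x₀ y₀)) := by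
    unfold GG
    have c1 : Tendsto (deriv f₁) (𝓝 x₀) (𝓝 (deriv f₁ x₀)) := ha1.deriv.continuousAt
    have c2 : Tendsto (fun x => deriv f₂ (g (f₁ x))) (𝓝 x₀) (𝓝 (deriv f₂ y₀)) :=
      Tendsto.comp (ha2.deriv.continuousAt) (g3.comp t1)
    exact (c2.sub (c1.const_mul κ)).div (c2.add (c1.const_mul κ)) n2
  refine (hlim.congr' ?_).mono_left nhdsWithin_le_nhds
  filter_upwards [key] with x hx
  rw [hx, finprod_mem_singleton]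

lemma cycle_all (x₀ y₀ : ℂ) : ∀ᶠ δ in 𝓝[>] (0 : ℝ), ∃ c : ℂ, c ≠ 0 ∧
    Tendsto (fun x => ∏ᶠ y ∈ fib (F1 u τ₁) (F2 (rr τ₁ * rr τ₂) α τ₂) x ∩ ball y₀ δ,
      GG (u / α * κ₀) (F1 u τ₁) (F2 (rr τ₁ * rr τ₂) α τ₂) x y) (𝓝[≠] x₀) (𝓝 c) := by
  by_cases hy : Lat τ₂ (2 * y₀ / α)
  · exact Eventually.of_forall fun δ => ⟨1, one_ne_zero, cycle_half S hy δ⟩
  have hy1 : ¬ Lat τ₂ (y₀ / α) := by
    intro h1
    apply hy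
    have := h1.add h1
    convert this using 1; ring
  by_cases hx : Lat τ₁ (x₀ / u)
  · -- pole of `f₁`
    have ht : Tendsto (F1 u τ₁) (𝓝[≠] x₀) (cobounded ℂ) := by
      apply tendsto_cobounded_of_meromorphicOrderAt_neg
      unfold F1
      rw [sc_order S.F.hu, Xf_order_pole S.F.hτ hx]
      exact_mod_cast (by norm_num : (-2 : ℤ) < 0)
    have h1 : ∀ᶠ x in 𝓝[≠] x₀, ‖F2 (rr τ₁ * rr τ₂) α τ₂ y₀‖ + 1 < ‖F1 u τ₁ x‖ :=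
      (tendsto_norm_cobounded_atTop.comp ht).eventually (eventually_gt_atTop _)
    have h2 : ∀ᶠ x in 𝓝[≠] x₀, 1 < ‖F1 u τ₁ x - F2 (rr τ₁ * rr τ₂) α τ₂ y₀‖ := by
      filter_upwards [h1] with x hx
      have := norm_sub_norm_le (F1 u τ₁ x) (F2 (rr τ₁ * rr τ₂) α τ₂ y₀)
      linarith
    filter_upwards [cycle_away S hy1 one_pos h2] with δ hδ
    exact ⟨1, one_ne_zero, hδ⟩
  by_cases h : F2 (rr τ₁ * rr τ₂) α τ₂ y₀ = F1 u τ₁ x₀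
  · exact cycle_branch S hx hy h
  · have hc : ContinuousAt (F1 u τ₁) x₀ := (sc_Xf_analyticAt S.F.hτ hx).continuousAt
    have hpos : 0 < ‖F1 u τ₁ x₀ - F2 (rr τ₁ * rr τ₂) α τ₂ y₀‖ :=
      norm_pos_iff.mpr (sub_ne_zero.mpr fun h1 => h h1.symm)
    have h2 : ∀ᶠ x in 𝓝 x₀, ‖F1 u τ₁ x₀ - F2 (rr τ₁ * rr τ₂) α τ₂ y₀‖ / 2 <
        ‖F1 u τ₁ x - F2 (rr τ₁ * rr τ₂) α τ₂ y₀‖ := by
      have hc2 : ContinuousAt (fun x => ‖F1 u τ₁ x - F2 (rr τ₁ * rr τ₂) α τ₂ y₀‖) x₀ :=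
        (hc.sub continuousAt_const).norm
      exact hc2.eventually_const_lt (by linarith)
    filter_upwards [cycle_away S hy1 (by linarith) (eventually_nhdsWithin_of_eventually_nhds h2)]
      with δ hδ
    exact ⟨1, one_ne_zero, hδ⟩

end

end Pool.Agent.Helper21.K1
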