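import Pool.Agent.Helper21.K1.Approx
import Pool.Agent.Helper21.Reg.Final

/-! # Density of the real regulator on `CH²(E₁ × E₂, 1)` -/

noncomputable section

namespace Pool.Agent.Helper21.K1

open Complex Filter Topology Set Metric Bornology MeasureTheory
open Pool.Agent.Helper21.Reg
open scoped ComplexConjugate

lemma area_pos (L : PeriodPair) : 0 < area L := by
  unfold area
  rw [abs_pos]
  obtain ⟨h1, h2, h3⟩ := omega_indep L
  intro h0
  apply h3
  rw [Complex.div_im]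
  rw [Complex.mul_im, Complex.conj_re, Complex.conj_im] at h0
  have hn : normSq L.ω₁ ≠ 0 := by simpa using h1
  field_simp
  linarith

/-- For every `c ≠ 0` there is a class whose `dx ∧ dȳ` component `w` has `Re (c w) ≠ 0`. -/
lemma exists_class (L₁ L₂ : PeriodPair) {c : ℂ} (hc : c ≠ 0) :
    ∃ (f₁ f₂ : ℂ → ℂ) (G : ℂ → ℂ → ℂ), IsK1 L₁ L₂ f₁ f₂ G ∧
      (c * (realReg L₁ L₂ f₁ f₂ G).2.2).re ≠ 0 := by
  obtain ⟨⟨τ₁, hF⟩, -⟩ := exists_frames L₁
  set u := L₁.ω₁ with hu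
  have hτ₁ := hF.hτ
  obtain ⟨τs, hτs, hne⟩ := exists_tau hτ₁
  have r1 := rr_ne_zero hτ₁
  have rs := rr_ne_zero hτs
  have k1 := KK_ne_zero hτ₁
  have ks := KK_ne_zero hτs
  -- the constant `C(τ)`
  set C : ℂ → ℂ := fun τ => KK τ / (rr τ₁ * rr τ * KK τ₁) with hC
  have hCs : C τs ≠ 0 := div_ne_zero ks (mul_ne_zero (mul_ne_zero r1 rs) k1)
  have cC : ContinuousAt C τs := by
    refine (KK_continuousAt hτs).div ?_ (mul_ne_zero (mul_ne_zero r1 rs) k1)
    exact (continuousAt_const.mul (rr_continuousAt hτs)).mul continuousAt_const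
  set κs : ℂ := (C τs) ^ (1 / 2 : ℂ) with hκs
  have hκs2 : κs ^ 2 = C τs := half_sq _
  have hκs0 : κs ≠ 0 := by
    intro h
    rw [h] at hκs2
    apply hCs
    rw [← hκs2]; simp
  set κf : ℂ → ℂ := fun τ => κs * (C τ / C τs) ^ (1 / 2 : ℂ) with hκf
  have hκf2 : ∀ τ, κf τ ^ 2 = C τ := by
    intro τ
    change (κs * (C τ / C τs) ^ (1 / 2 : ℂ)) ^ 2 = C τ
    rw [mul_pow, hκs2, half_sq, mul_div_cancel₀ _ hCs]
  have hκfs : κf τs = κs := by
    simp only [hκf]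
    rw [div_self hCs, Complex.one_cpow, mul_one]
  have cκ : ContinuousAt κf τs := by
    refine continuousAt_const.mul ?_
    have c0 : ContinuousAt (fun τ => C τ / C τs) τs := cC.div continuousAt_const hCs
    refine c0.cpow continuousAt_const ?_
    rw [div_self hCs]
    exact one_mem_slitPlane
  -- the target scaling
  have hcc : conj c ≠ 0 := by simpa using hc
  have hu0 := hF.hu
  set αs : ℂ := u * κs / conj c with hαs
  have hαs0 : αs ≠ 0 := div_ne_zero (mul_ne_zero hu0 hκs0) hcc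
  set Q : ℂ × ℂ → ℂ × ℂ := fun q =>
    (rr τ₁ * rr q.2 ^ 2, c * conj (q.1 / (u * κf q.2))) with hQ
  have cQ : ContinuousAt Q (αs, τs) := by
    have c1 : ContinuousAt (fun q : ℂ × ℂ => rr q.2) (αs, τs) :=
      ContinuousAt.comp (g := rr) (f := fun q : ℂ × ℂ => q.2) (rr_continuousAt hτs) continuousAt_snd
    have c2 : ContinuousAt (fun q : ℂ × ℂ => κf q.2) (αs, τs) :=
      ContinuousAt.comp (g := κf) (f := fun q : ℂ × ℂ => q.2) cκ continuousAt_snd
    refine (continuousAt_const.mul (c1.pow 2)).prodMk (continuousAt_const.mul ?_)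
    refine Complex.continuous_conj.continuousAt.comp ?_
    refine continuousAt_fst.div (continuousAt_const.mul c2) ?_
    simp only
    rw [hκfs]
    exact mul_ne_zero hu0 hκs0
  have hQs : Q (αs, τs) = (rr τ₁ * rr τs ^ 2, 1) := by
    simp only [hQ]
    rw [hκfs, hαs]
    have e : u * κs / conj c / (u * κs) = (conj c)⁻¹ := by field_simp
    rw [e, map_inv₀, Complex.conj_conj, mul_inv_cancel₀ hc]
  have hlam : Xf τ₁ (τ₁ / 2) ≠ rr τ₁ * rr τs ^ 2 := by
    change pp τ₁ ≠ _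
    rw [pp_eq hτ₁]
    intro h
    apply hne
    field_simp at h
    rw [mul_pow]
    exact h.symm
  have hev1 : ∀ᶠ q in 𝓝 (αs, τs), ((Q q).2 * Phi τ₁ (Xf τ₁ (τ₁ / 2)) (Q q).1).re < 0 := by
    have h1 := Phi_near hτ₁ (not_lat_half hτ₁) hlam
    rw [← hQs] at h1
    exact cQ.eventually h1
  have hev2 : ∀ᶠ q : ℂ × ℂ in 𝓝 (αs, τs), (rr τ₁ * rr q.2) ^ 2 ≠ 1 := by
    have c1 : ContinuousAt (fun q : ℂ × ℂ => (rr τ₁ * rr q.2) ^ 2) (αs, τs) := by
      refine (continuousAt_const.mul ?_).pow 2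
      exact ContinuousAt.comp (g := rr) (f := fun q : ℂ × ℂ => q.2) (rr_continuousAt hτs)
        continuousAt_snd
    exact c1.eventually_ne hne
  obtain ⟨α, τ₂, N, hN, hα, hτ₂, ⟨hP1, hP2⟩, hsup⟩ := approx L₂ hαs0 hτs (hev1.and hev2)
  have hNc : (N : ℂ) ≠ 0 := by exact_mod_cast hN.ne'
  have S : Setup L₁ L₂ u τ₁ (α / N) τ₂ (κf τ₂) :=
    { F := hF
      hτ₂ := hτ₂
      hα := div_ne_zero hα hNc
      sup := hsup
      hκ := hκf2 τ₂
      hne := hP2 }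
  refine ⟨_, _, _, isK1 S, ?_⟩
  rw [H12_eq S]
  have e : c * (((area L₁ * (2 * nn L₂ (α / N) τ₂ : ℕ) : ℝ) : ℂ) *
      (conj (u / (α / N) * κf τ₂)⁻¹ * Phi τ₁ (pp τ₁) (rr τ₁ * rr τ₂ ^ 2))) =
      ((area L₁ * (2 * nn L₂ (α / N) τ₂ : ℕ) * (N : ℝ)⁻¹ : ℝ) : ℂ) *
        ((Q (α, τ₂)).2 * Phi τ₁ (Xf τ₁ (τ₁ / 2)) (Q (α, τ₂)).1) := by
    have e1 : (u / (α / N) * κf τ₂)⁻¹ = (N : ℂ)⁻¹ * (α / (u * κf τ₂)) := by
      have := S.κ_ne
      field_simp
    rw [e1, map_mul, map_inv₀]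
    have e2 : conj (N : ℂ) = N := Complex.conj_natCast N
    rw [e2]
    simp only [hQ]
    have e3 : pp τ₁ = Xf τ₁ (τ₁ / 2) := rfl
    rw [e3]
    push_cast
    ring
  rw [e, Complex.re_ofReal_mul]
  refine mul_ne_zero ?_ hP1.ne
  have h1 := (area_pos L₁).ne'
  have h2 : ((2 * nn L₂ (α / N) τ₂ : ℕ) : ℝ) ≠ 0 := by
    have := nn_pos (L := L₂) hτ₂ S.hα
    exact_mod_cast (by omega : 2 * nn L₂ (α / N) τ₂ ≠ 0)
  have h3 : (N : ℝ)⁻¹ ≠ 0 := inv_ne_zero (by exact_mod_cast hN.ne')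
  exact mul_ne_zero (mul_ne_zero h1 h2) h3

/-- **Main theorem** -/
theorem density (L₁ L₂ : PeriodPair) :
    Dense (Submodule.span ℚ {v | IsRegValue L₁ L₂ v} : Set (ℝ × ℝ × ℂ)) := by
  set W := Submodule.span ℚ {v | IsRegValue L₁ L₂ v} with hW
  set C := W.topologicalClosure with hC
  have hle : W ≤ C := Submodule.le_topologicalClosure _
  have hsm : ∀ (r : ℝ) (v : ℝ × ℝ × ℂ), v ∈ C → r • v ∈ C := fun r v hv =>
    real_smul_mem W r hv
  have hval : ∀ v, IsRegValue L₁ L₂ v → v ∈ C := fun v hv => hle (Submodule.subset_span hv)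
  have hh : ∀ r : ℝ, ((r, 0, 0) : ℝ × ℝ × ℂ) ∈ C := by
    intro r
    have h1 := (area_pos L₁).ne'
    have h2 := hval _ (IsRegValue.horizontal (L₁ := L₁) (L₂ := L₂)
      (Complex.exp ((r / area L₁ : ℝ) : ℂ)) (Complex.exp_ne_zero _))
    rw [Complex.norm_exp, Complex.ofReal_re, Real.log_exp] at h2
    rwa [mul_div_cancel₀ _ h1] at h2
  have hv : ∀ r : ℝ, ((0, r, 0) : ℝ × ℝ × ℂ) ∈ C := by
    intro r
    have h1 := (area_pos L₂).ne'
    have h2 := hval _ (IsRegValue.vertical (L₁ := L₁) (L₂ := L₂)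
      (Complex.exp ((r / area L₂ : ℝ) : ℂ)) (Complex.exp_ne_zero _))
    rw [Complex.norm_exp, Complex.ofReal_re, Real.log_exp] at h2
    rwa [mul_div_cancel₀ _ h1] at h2
  have hK : ∀ c : ℂ, c ≠ 0 → ∃ w : ℂ, ((0, 0, w) : ℝ × ℝ × ℂ) ∈ C ∧ (c * w).re ≠ 0 := by
    intro c hc
    obtain ⟨f₁, f₂, G, hG, hne⟩ := exists_class L₁ L₂ hc
    refine ⟨(realReg L₁ L₂ f₁ f₂ G).2.2, ?_, hne⟩
    have h1 := hval _ (IsRegValue.indec f₁ f₂ G hG)
    have h2 := C.sub_mem (C.sub_mem h1 (hh (realReg L₁ L₂ f₁ f₂ G).1))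
      (hv (realReg L₁ L₂ f₁ f₂ G).2.1)
    convert h2 using 1
    refine Prod.ext (by simp) (Prod.ext (by simp) (by simp))
  have ha : ∀ w : ℂ, ((0, 0, w) : ℝ × ℝ × ℂ) ∈ C := by
    obtain ⟨w₁, h1, hne1⟩ := hK 1 one_ne_zero
    have hw₁ : w₁ ≠ 0 := by rintro rfl; simp at hne1
    obtain ⟨w₂, h2, hne2⟩ := hK (I * conj w₁) (mul_ne_zero I_ne_zero (by simpa using hw₁))
    set d : ℝ := (conj w₁ * w₂).im with hd
    have hd0 : d ≠ 0 := by
      intro h0
      apply hne2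
      rw [mul_assoc, Complex.I_mul_re, ← hd, h0, neg_zero]
    intro w
    have e : ((0, 0, w) : ℝ × ℝ × ℂ) = ((conj w * w₂).im / d) • ((0, 0, w₁) : ℝ × ℝ × ℂ) +
        ((conj w₁ * w).im / d) • ((0, 0, w₂) : ℝ × ℝ × ℂ) := by
      refine Prod.ext (by simp) (Prod.ext (by simp) ?_)
      simp only [Prod.snd_add, Prod.smul_snd]
      have hid : (d : ℂ) * w = ((conj w * w₂).im : ℂ) * w₁ + ((conj w₁ * w).im : ℂ) * w₂ := by
        rw [hd]
        apply Complex.ext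
        · simp [Complex.mul_im]; ring
        · simp [Complex.mul_im]; ring
      have hdc : (d : ℂ) ≠ 0 := by exact_mod_cast hd0
      simp only [Complex.real_smul]
      generalize (conj w * w₂).im = x at hid ⊢
      generalize (conj w₁ * w).im = y at hid ⊢
      push_cast
      field_simp
      linear_combination hid
    rw [e]
    exact C.add_mem (hsm _ _ h1) (hsm _ _ h2)
  have htop : ∀ v : ℝ × ℝ × ℂ, v ∈ C := by
    rintro ⟨r, s, w⟩
    have e : ((r, s, w) : ℝ × ℝ × ℂ) = (r, 0, 0) + (0, s, 0) + (0, 0, w) := by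
      refine Prod.ext (by simp) (Prod.ext (by simp) (by simp))
    rw [e]
    exact C.add_mem (C.add_mem (hh r) (hv s)) (ha w)
  intro v
  have := htop v
  rwa [← SetLike.mem_coe, Submodule.topologicalClosure_coe] at this

end Pool.Agent.Helper21.K1
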