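import Pool.Agent.Helper21.Reg.Unbdd
import Pool.Agent.Helper21.Reg.Basis

/-! # Liouville's theorem for elliptic functions -/

noncomputable section

namespace Pool.Agent.Helper21.K1

open Complex Filter Topology Set Metric Bornology
open Pool.Agent.Helper21.Reg

variable {τ : ℂ}

/-- the continuous extension -/
lemma exists_entire {f : ℂ → ℂ} (hf : ∀ z, MeromorphicAt f z)
    (h : ∀ z, 0 ≤ meromorphicOrderAt f z) :
    ∃ g : ℂ → ℂ, (∀ z, AnalyticAt ℂ g z) ∧ ∀ z, g =ᶠ[𝓝[≠] z] f := by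
  have hm : MeromorphicOn f univ := fun z _ => hf z
  refine ⟨toMeromorphicNFOn f univ, fun z => ?_, fun z =>
    hm.toMeromorphicNFOn_eq_self_on_nhdsNE (mem_univ z)⟩
  have h1 := meromorphicNFOn_toMeromorphicNFOn f univ (mem_univ z)
  rw [← h1.meromorphicOrderAt_nonneg_iff_analyticAt,
    meromorphicOrderAt_toMeromorphicNFOn hm (mem_univ z)]
  exact h z

lemma eq_of_eventually_ne {g h : ℂ → ℂ} {z : ℂ} (hg : ContinuousAt g z) (hh : ContinuousAt h z)
    (e : g =ᶠ[𝓝[≠] z] h) : g z = h z :=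
  ((hg.eventuallyEq_nhds_iff_eventuallyEq_nhdsNE hh).1 e).eq_of_nhds

/-- a continuous doubly periodic function is bounded -/
lemma bounded_of_periodic (hτ : 0 < τ.im) {g : ℂ → ℂ} (hg : Continuous g)
    (h1 : ∀ z, g (z + 1) = g z) (h2 : ∀ z, g (z + τ) = g z) : IsBounded (range g) := by
  have hK : IsCompact (zt τ '' (Icc (0 : ℝ) 1 ×ˢ Icc (0 : ℝ) 1)) :=
    (isCompact_Icc.prod isCompact_Icc).image (continuous_zt τ)
  refine (hK.image hg).isBounded.subset ?_
  rintro _ ⟨z, rfl⟩
  set b : ℝ := z.im / τ.im with hb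
  set a : ℝ := z.re - b * τ.re with ha
  have hz : z = (a : ℂ) + b * τ := by
    apply Complex.ext
    · simp [ha]
    · simp only [add_im, ofReal_im, mul_im, ofReal_re, hb]
      field_simp
      ring
  have p1 : Function.Periodic g 1 := h1
  have p2 : Function.Periodic g τ := h2
  refine ⟨zt τ (Int.fract a, Int.fract b), ⟨(Int.fract a, Int.fract b), ?_, rfl⟩, ?_⟩
  · exact ⟨⟨Int.fract_nonneg _, (Int.fract_lt_one _).le⟩, ⟨Int.fract_nonneg _,
      (Int.fract_lt_one _).le⟩⟩
  · have e : z = zt τ (Int.fract a, Int.fract b) + (⌊a⌋ : ℤ) * 1 + (⌊b⌋ : ℤ) * τ := by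
      have ea : (a : ℂ) = (Int.fract a : ℝ) + (⌊a⌋ : ℤ) := by
        have := Int.fract_add_floor a
        exact_mod_cast this.symm
      have eb : (b : ℂ) = (Int.fract b : ℝ) + (⌊b⌋ : ℤ) := by
        have := Int.fract_add_floor b
        exact_mod_cast this.symm
      rw [hz]
      unfold zt
      simp only
      rw [ea, eb]
      have f1 : Int.fract ((Int.fract a : ℝ) + ((⌊a⌋ : ℤ) : ℝ)) = Int.fract a := by
        rw [Int.fract_add_intCast, Int.fract_fract]
      ring
    conv_rhs => rw [e]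
    rw [(p2.int_mul ⌊b⌋), (p1.int_mul ⌊a⌋)]

/-- An elliptic function without poles is constant. -/
lemma liouville (hτ : 0 < τ.im) {f : ℂ → ℂ} (hf : ∀ z, MeromorphicAt f z)
    (f1 : ∀ z, f (z + 1) = f z) (f2 : ∀ z, f (z + τ) = f z)
    (h : ∀ z, 0 ≤ meromorphicOrderAt f z) :
    ∃ c : ℂ, (∀ z, f =ᶠ[𝓝[≠] z] fun _ => c) ∧ ∀ z, ContinuousAt f z → f z = c := by
  obtain ⟨g, hg, hgf⟩ := exists_entire hf h
  have hd : Differentiable ℂ g := fun z => (hg z).differentiableAt
  have per : ∀ w : ℂ, (∀ z, f (z + w) = f z) → ∀ z, g (z + w) = g z := by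
    intro w hw z
    have hc1 : ContinuousAt (fun z => g (z + w)) z := by
      have : Continuous (fun z => g (z + w)) := hd.continuous.comp (by fun_prop)
      exact this.continuousAt
    refine eq_of_eventually_ne (g := fun z => g (z + w)) hc1 hd.continuous.continuousAt ?_
    have e1 : ∀ᶠ y in 𝓝[≠] z, g (y + w) = f (y + w) := by
      have ht : Tendsto (fun y => y + w) (𝓝[≠] z) (𝓝[≠] (z + w)) := by
        refine tendsto_nhdsWithin_iff.mpr ⟨?_, ?_⟩
        · exact tendsto_nhdsWithin_of_tendsto_nhds (Continuous.tendsto (by fun_prop) z)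
        · filter_upwards [self_mem_nhdsWithin] with y hy
          simpa using hy
      exact ht.eventually (hgf (z + w))
    filter_upwards [e1, hgf z] with y h1 h2
    rw [h1, h2, hw]
  have hb := bounded_of_periodic hτ hd.continuous (per 1 f1) (per τ f2)
  refine ⟨g 0, fun z => ?_, fun z hz => ?_⟩
  · filter_upwards [hgf z] with y hy
    rw [← hy]
    exact hd.apply_eq_apply_of_bounded hb y 0
  · rw [← eq_of_eventually_ne hd.continuous.continuousAt hz (hgf z)]
    exact hd.apply_eq_apply_of_bounded hb z 0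

end Pool.Agent.Helper21.K1
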