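import Pool.Agent.Helper21.K1.Xf

/-! # The differential equation of `Xf`; continuity in the modulus -/

noncomputable section

namespace Pool.Agent.Helper21.K1

open Complex Filter Topology Set Metric Bornology
open Pool.Agent.Helper21.Reg

/-! ### joint continuity of the product -/

lemma qp_continuousOn : ContinuousOn (fun p : ℂ × ℂ => qp p.1 p.2) {p | ‖p.1‖ < 1} := by
  have hopen : IsOpen {p : ℂ × ℂ | ‖p.1‖ < 1} := isOpen_lt (by fun_prop) continuous_const
  have key : HasProdLocallyUniformlyOn (fun (n : ℕ) (p : ℂ × ℂ) => 1 + -(p.1 ^ n * p.2))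
      (fun p => ∏' n : ℕ, (1 + -(p.1 ^ n * p.2))) {p : ℂ × ℂ | ‖p.1‖ < 1} := by
    apply hasProdLocallyUniformlyOn_of_forall_compact hopen
    intro K hKs hK
    obtain ⟨M, hM⟩ := hK.isBounded.exists_norm_le
    obtain ⟨ρ, hρ1, hρ⟩ : ∃ ρ : ℝ, ρ < 1 ∧ ∀ p ∈ K, ‖p.1‖ ≤ ρ := by
      rcases K.eq_empty_or_nonempty with rfl | hne
      · exact ⟨0, by norm_num, by simp⟩
      · obtain ⟨p, hp, hmax⟩ := hK.exists_isMaxOn hne
          (f := fun p : ℂ × ℂ => ‖p.1‖) (by fun_prop)
        exact ⟨‖p.1‖, hKs hp, fun q hq => hmax hq⟩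
    rcases K.eq_empty_or_nonempty with rfl | ⟨p₀, hp₀⟩
    · rw [hasProdUniformlyOn_iff_tendstoUniformlyOn]
      exact tendstoUniformlyOn_empty
    have hρ0 : 0 ≤ ρ := (norm_nonneg _).trans (hρ p₀ hp₀)
    refine Summable.hasProdUniformlyOn_nat_one_add
      (u := fun n => ρ ^ n * M) hK ?_ ?_ ?_
    · exact (summable_geometric_of_lt_one hρ0 hρ1).mul_right _
    · refine Eventually.of_forall fun n x hx => ?_
      rw [norm_neg, norm_mul, norm_pow]
      have h1 := hρ x hx
      have h2 : ‖x.2‖ ≤ M := (norm_snd_le x).trans (hM x hx)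
      gcongr
    · intro n; fun_prop
  have h2 := key.tendstoLocallyUniformlyOn_finsetRange
  refine h2.continuousOn (Eventually.frequently (Eventually.of_forall fun n => ?_))
  fun_prop

lemma qp_continuousAt {q s : ℂ} (hq : ‖q‖ < 1) :
    ContinuousAt (fun p : ℂ × ℂ => qp p.1 p.2) (q, s) := by
  have hopen : IsOpen {p : ℂ × ℂ | ‖p.1‖ < 1} := isOpen_lt (by fun_prop) continuous_const
  exact qp_continuousOn.continuousAt (hopen.mem_nhds hq)

lemma Th_continuousAt {τ z : ℂ} (hτ : 0 < τ.im) :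
    ContinuousAt (fun p : ℂ × ℂ => Th p.1 p.2) (τ, z) := by
  have hq := norm_q_lt hτ
  have c1 : ContinuousAt (fun p : ℂ × ℂ => (ee p.1, ee p.2)) (τ, z) := by
    have : Continuous fun p : ℂ × ℂ => (ee p.1, ee p.2) :=
      (differentiable_ee.continuous.comp continuous_fst).prodMk
        (differentiable_ee.continuous.comp continuous_snd)
    exact this.continuousAt
  have c2 : ContinuousAt (fun p : ℂ × ℂ => (ee p.1, ee p.1 * (ee p.2)⁻¹)) (τ, z) := by
    have : Continuous fun p : ℂ × ℂ => (ee p.1, ee p.1 * (ee p.2)⁻¹) := by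
      refine (differentiable_ee.continuous.comp continuous_fst).prodMk ?_
      exact (differentiable_ee.continuous.comp continuous_fst).mul
        ((differentiable_ee.continuous.comp continuous_snd).inv₀ fun p => ee_ne_zero _)
    exact this.continuousAt
  unfold Th
  refine ContinuousAt.mul ?_ ?_
  · exact ContinuousAt.comp (g := fun p : ℂ × ℂ => qp p.1 p.2)
      (f := fun p : ℂ × ℂ => (ee p.1, ee p.2)) (qp_continuousAt hq) c1
  · exact ContinuousAt.comp (g := fun p : ℂ × ℂ => qp p.1 p.2)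
      (f := fun p : ℂ × ℂ => (ee p.1, ee p.1 * (ee p.2)⁻¹)) (qp_continuousAt hq) c2

/-- `X` at `(1 + τ)/2` -/
def rr (τ : ℂ) : ℂ := Xf τ ((1 + τ) / 2)

/-- `X` at `τ / 2` -/
def pp (τ : ℂ) : ℂ := Xf τ (τ / 2)

/-- the constant of the differential equation -/
def KK (τ : ℂ) : ℂ := 4 * (2 * Real.pi * I * qp (ee τ) (ee τ) ^ 2) ^ 2 / Th τ (1 / 2) ^ 2

section
variable {τ : ℂ} (hτ : 0 < τ.im)
include hτ

lemma not_lat_r : ¬ Lat τ ((1 + τ) / 2) :=
  not_lat_im hτ (s := 1 / 2) (by simp; ring) (not_int 0 (by norm_num) (by norm_num))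

lemma rr_continuousAt : ContinuousAt rr τ := by
  have e : rr = fun τ => Th τ ((1 + τ) / 2 - 1 / 2) ^ 2 * (Th τ ((1 + τ) / 2) ^ 2)⁻¹ := by
    funext τ; exact Xf_eq _
  rw [e]
  have c1 : ContinuousAt (fun τ : ℂ => Th τ ((1 + τ) / 2 - 1 / 2)) τ :=
    ContinuousAt.comp (g := fun p : ℂ × ℂ => Th p.1 p.2)
      (f := fun τ : ℂ => (τ, (1 + τ) / 2 - 1 / 2)) (Th_continuousAt hτ) (by fun_prop)
  have c2 : ContinuousAt (fun τ : ℂ => Th τ ((1 + τ) / 2)) τ :=
    ContinuousAt.comp (g := fun p : ℂ × ℂ => Th p.1 p.2)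
      (f := fun τ : ℂ => (τ, (1 + τ) / 2)) (Th_continuousAt hτ) (by fun_prop)
  refine (c1.pow 2).mul ((c2.pow 2).inv₀ (pow_ne_zero 2 ?_))
  rw [Ne, Th_eq_zero_iff hτ]
  exact not_lat_r hτ

lemma KK_continuousAt : ContinuousAt KK τ := by
  unfold KK
  have c1 : ContinuousAt (fun τ : ℂ => qp (ee τ) (ee τ)) τ := by
    refine ContinuousAt.comp (g := fun p : ℂ × ℂ => qp p.1 p.2)
      (f := fun τ : ℂ => (ee τ, ee τ)) (qp_continuousAt (norm_q_lt hτ)) ?_
    exact (differentiable_ee.continuous.prodMk differentiable_ee.continuous).continuousAt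
  have c2 : ContinuousAt (fun τ : ℂ => Th τ (1 / 2)) τ :=
    ContinuousAt.comp (g := fun p : ℂ × ℂ => Th p.1 p.2)
      (f := fun τ : ℂ => (τ, 1 / 2)) (Th_continuousAt hτ) (by fun_prop)
  refine ContinuousAt.div ?_ (c2.pow 2) (pow_ne_zero 2 ?_)
  · exact continuousAt_const.mul ((continuousAt_const.mul (c1.pow 2)).pow 2)
  · rw [Ne, Th_eq_zero_iff hτ]
    exact not_lat_oneHalf hτ

lemma Xf_mul_shift {z : ℂ} (h1 : ¬ Lat τ z) (h2 : ¬ Lat τ (z + 1 / 2)) :
    Xf τ (z + 1 / 2) * Xf τ z = 1 := by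
  rw [Xf_eq, Xf_eq, add_sub_cancel_right, Th_sub_half]
  have e1 : Th τ z ≠ 0 := by rwa [Ne, Th_eq_zero_iff hτ]
  have e2 : Th τ (z + 1 / 2) ≠ 0 := by rwa [Ne, Th_eq_zero_iff hτ]
  generalize Th τ (z + 1 / 2) = b at *
  generalize Th τ z = a at *
  field_simp

lemma rr_mul_pp : rr τ * pp τ = 1 := by
  have e : (1 + τ) / 2 = τ / 2 + 1 / 2 := by ring
  unfold rr pp
  rw [e]
  refine Xf_mul_shift hτ (not_lat_half hτ) ?_
  rw [← e]; exact not_lat_r hτ

lemma rr_ne_zero : rr τ ≠ 0 := left_ne_zero_of_mul (by rw [rr_mul_pp hτ]; exact one_ne_zero)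

lemma pp_ne_zero : pp τ ≠ 0 := right_ne_zero_of_mul (by rw [rr_mul_pp hτ]; exact one_ne_zero)

lemma pp_eq : pp τ = (rr τ)⁻¹ := by
  have := rr_mul_pp hτ
  have h := rr_ne_zero hτ
  field_simp
  rw [mul_comm]; exact this

lemma Xf_half : Xf τ (1 / 2) = 0 := by
  rw [Xf_eq, sub_self]
  have : Th τ 0 = 0 := (Th_eq_zero_iff hτ 0).mpr (Lat_zero τ)
  simp [this]

lemma rr_ne_pp : rr τ ≠ pp τ := by
  unfold rr pp
  rw [Ne, Xf_eq_iff hτ (not_lat_half hτ) (not_lat_r hτ)]
  rintro (h | h)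
  · apply not_lat_oneHalf hτ
    convert h using 1; ring
  · apply not_lat_oneHalf hτ
    have := h.sub (Lat_tau τ)
    convert this using 1; ring

/-- order of `X - X(D)` at a half period `D` -/
lemma sub_order {D : ℂ} (hD : ¬ Lat τ D) (hD2 : Lat τ (2 * D)) (z : ℂ) [Decidable (Lat τ (z - D))]
    [Decidable (Lat τ z)] :
    meromorphicOrderAt (fun z => Xf τ z - Xf τ D) z =
      (((if Lat τ (z - D) then 2 else 0) + (if Lat τ z then -2 else 0) : ℤ) : WithTop ℤ) := by
  classical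
  obtain ⟨c, hc, h⟩ := Xf_sub hτ hD
  have e : (fun z => Xf τ z - Xf τ D) =ᶠ[𝓝[≠] z] (fun _ => c) * ph τ D := by
    have h1 : ∀ᶠ w in 𝓝[≠] z, ¬ Lat τ w := by
      have := (meromorphicOrderAt_ne_top_iff_eventually_ne_zero
        (Th_analyticAt hτ z).meromorphicAt).mp (by rw [Th_order hτ]; split_ifs <;> simp)
      filter_upwards [this] with w hw
      rwa [← Th_eq_zero_iff hτ]
    filter_upwards [h1] with w hw
    simp [h w hw]
  rw [meromorphicOrderAt_congr e, meromorphicOrderAt_mul_of_ne_zero analyticAt_const hc,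
    ph_order hτ]
  have e2 : Lat τ (z + D) ↔ Lat τ (z - D) := by
    constructor
    · intro h
      have := h.sub hD2
      convert this using 1; ring
    · intro h
      have := h.add hD2
      convert this using 1; ring
  congr 1
  by_cases h1 : Lat τ (z - D)
  · rw [if_pos h1, if_pos (e2.mpr h1), if_pos h1]
    split_ifs <;> rfl
  · rw [if_neg h1, if_neg (fun h => h1 (e2.mp h)), if_neg h1]
    split_ifs <;> rfl

lemma deriv_Xf_add {l : ℂ} (hl : Lat τ l) (z : ℂ) : deriv (Xf τ) (z + l) = deriv (Xf τ) z := by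
  rw [← deriv_comp_add_const]
  congr 1
  funext w
  exact (NEll_Xf hτ).add_lat hl w

lemma ode_exists : ∃ K : ℂ, K ≠ 0 ∧ ∀ z, ¬ Lat τ z →
    deriv (Xf τ) z ^ 2 = K * (Xf τ z * (Xf τ z - rr τ) * (Xf τ z - pp τ)) := by
  classical
  have hX := NEll_Xf hτ
  set h0 : ℂ := 1 / 2 with hh0
  have A0 : ¬ Lat τ h0 := not_lat_oneHalf hτ
  have A1 : ¬ Lat τ ((1 + τ) / 2) := not_lat_r hτ
  have A2 : ¬ Lat τ (τ / 2) := not_lat_half hτ
  have B0 : Lat τ (2 * h0) := ⟨1, 0, by simp [hh0]⟩
  have B1 : Lat τ (2 * ((1 + τ) / 2)) := ⟨1, 1, by push_cast; ring⟩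
  have B2 : Lat τ (2 * (τ / 2)) := ⟨0, 1, by push_cast; ring⟩
  set C : ℂ → ℂ := (fun z => Xf τ z - Xf τ h0) * (fun z => Xf τ z - Xf τ ((1 + τ) / 2)) *
    (fun z => Xf τ z - Xf τ (τ / 2)) with hC
  have m0 : ∀ D z, MeromorphicAt (fun z => Xf τ z - Xf τ D) z :=
    fun D z => (hX.mero z).sub (MeromorphicAt.const _ _)
  have hCm : ∀ z, MeromorphicAt C z := fun z => ((m0 _ z).mul (m0 _ z)).mul (m0 _ z)
  have hCo : ∀ z, meromorphicOrderAt C z =
      (((if Lat τ (z - h0) then 2 else 0) + (if Lat τ (z - (1 + τ) / 2) then 2 else 0) +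
        (if Lat τ (z - τ / 2) then 2 else 0) + (if Lat τ z then -6 else 0) : ℤ) : WithTop ℤ) := by
    intro z
    rw [hC, meromorphicOrderAt_mul ((m0 _ z).mul (m0 _ z)) (m0 _ z),
      meromorphicOrderAt_mul (m0 _ z) (m0 _ z), sub_order hτ A0 B0, sub_order hτ A1 B1,
      sub_order hτ A2 B2, ← WithTop.coe_add, ← WithTop.coe_add]
    congr 1
    split_ifs <;> norm_num
  set Q : ℂ → ℂ := (deriv (Xf τ) * deriv (Xf τ)) / C with hQ
  have dm : ∀ z, MeromorphicAt (deriv (Xf τ)) z := fun z => (hX.mero z).deriv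
  have hQm : ∀ z, MeromorphicAt Q z := fun z => ((dm z).mul (dm z)).div (hCm z)
  have hQo : ∀ z, meromorphicOrderAt Q z = meromorphicOrderAt (deriv (Xf τ)) z +
      meromorphicOrderAt (deriv (Xf τ)) z - meromorphicOrderAt C z := by
    intro z
    rw [hQ, meromorphicOrderAt_div ((dm z).mul (dm z)) (hCm z), meromorphicOrderAt_mul (dm z) (dm z)]
  have hsep : ∀ z, Lat τ z → ¬ Lat τ (z - h0) ∧ ¬ Lat τ (z - (1 + τ) / 2) ∧ ¬ Lat τ (z - τ / 2) := by
    intro z hz
    refine ⟨fun h => A0 ?_, fun h => A1 ?_, fun h => A2 ?_⟩ <;> simpa using hz.sub h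
  have hpole : ∀ z, Lat τ z → meromorphicOrderAt Q z = 0 := by
    intro z hz
    obtain ⟨s0, s1, s2⟩ := hsep z hz
    have h1 : meromorphicOrderAt (deriv (Xf τ)) z = ((-3 : ℤ) : WithTop ℤ) := by
      have := meromorphicOrderAt_deriv_eq_sub_one (n := -2) (by norm_num) (Xf_order_pole hτ hz)
      rw [this]; norm_num
    rw [hQo, hCo, h1, if_neg s0, if_neg s1, if_neg s2, if_pos hz]
    rfl
  have key : ∀ (a : WithTop ℤ) (n : ℤ), ((n : ℤ) : WithTop ℤ) ≤ a →
      (0 : WithTop ℤ) ≤ a - ((n : ℤ) : WithTop ℤ) := by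
    intro a n hn
    cases a with
    | top => simp
    | coe a =>
      have : n ≤ a := by exact_mod_cast hn
      exact_mod_cast (by omega : (0 : ℤ) ≤ a - n)
  have hnonneg : ∀ z, 0 ≤ meromorphicOrderAt Q z := by
    intro z
    by_cases hz : Lat τ z
    · rw [hpole z hz]
    have hda : AnalyticAt ℂ (deriv (Xf τ)) z := (Xf_analyticAt hτ hz).deriv
    rw [hQo, hCo, if_neg hz]
    apply key
    by_cases hh : Lat τ (2 * z)
    · have h1 := order_of_analytic hda (deriv_Xf_half hτ hh)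
      have h2 : ((2 : ℤ) : WithTop ℤ) ≤ meromorphicOrderAt (deriv (Xf τ)) z +
          meromorphicOrderAt (deriv (Xf τ)) z := by
        have := add_le_add h1 h1
        exact_mod_cast this
      refine le_trans ?_ h2
      have excl : ∀ a b : ℂ, ¬ Lat τ (a - b) → Lat τ (z - a) → ¬ Lat τ (z - b) := by
        intro a b hab h1 h2
        apply hab
        have := h2.sub h1
        convert this using 1; ring
      have d01 : ¬ Lat τ (h0 - (1 + τ) / 2) := by
        intro h
        apply A2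
        have := h.neg
        convert this using 1; rw [hh0]; ring
      have d02 : ¬ Lat τ (h0 - τ / 2) := by
        intro h
        apply A1
        have := h.add (Lat_tau τ)
        convert this using 1; rw [hh0]; ring
      have d12 : ¬ Lat τ ((1 + τ) / 2 - τ / 2) := by
        intro h
        apply A0
        convert h using 1; rw [hh0]; ring
      have goal : ((if Lat τ (z - h0) then 2 else 0) + (if Lat τ (z - (1 + τ) / 2) then 2 else 0) +
        (if Lat τ (z - τ / 2) then 2 else 0) + 0 : ℤ) ≤ 2 := by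
        by_cases c0 : Lat τ (z - h0)
        · rw [if_pos c0, if_neg (excl _ _ d01 c0), if_neg (excl _ _ d02 c0)]; norm_num
        · rw [if_neg c0]
          by_cases c1 : Lat τ (z - (1 + τ) / 2)
          · rw [if_pos c1, if_neg (excl _ _ d12 c1)]; norm_num
          · rw [if_neg c1]
            split_ifs <;> norm_num
      exact_mod_cast goal
    · have ex : ∀ D : ℂ, Lat τ (2 * D) → ¬ Lat τ (z - D) := by
        intro D hD h
        apply hh
        have := (h.add h).add hD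
        convert this using 1; ring
      rw [if_neg (ex _ B0), if_neg (ex _ B1), if_neg (ex _ B2)]
      have := hda.meromorphicOrderAt_nonneg
      have h3 := add_nonneg this this
      exact_mod_cast h3
  have hCper : ∀ w z : ℂ, Lat τ w → C (z + w) = C z := by
    intro w z hw
    simp only [hC, Pi.mul_apply]
    rw [hX.add_lat hw]
  obtain ⟨K, hK, -⟩ := liouville (f := Q) hτ hQm (fun z => by
      simp only [hQ, Pi.div_apply, Pi.mul_apply]
      rw [hCper 1 z (by simpa using Lat_int τ 1), deriv_Xf_add hτ (by simpa using Lat_int τ 1)])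
    (fun z => by
      simp only [hQ, Pi.div_apply, Pi.mul_apply]
      rw [hCper τ z (Lat_tau τ), deriv_Xf_add hτ (Lat_tau τ)]) hnonneg
  have hK0 : K ≠ 0 := by
    rintro rfl
    have h1 := hpole 0 (Lat_zero τ)
    rw [meromorphicOrderAt_congr (hK 0)] at h1
    have : meromorphicOrderAt (fun _ : ℂ => (0 : ℂ)) 0 = ⊤ := by
      rw [meromorphicOrderAt_eq_top_iff]; simp
    rw [this] at h1
    exact WithTop.top_ne_zero h1
  refine ⟨K, hK0, fun z hz => ?_⟩
  have hXa := Xf_analyticAt hτ hz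
  have ha1 : ContinuousAt (fun z => deriv (Xf τ) z ^ 2) z := (hXa.deriv.pow 2).continuousAt
  have ha2 : ContinuousAt (fun z => K * (Xf τ z * (Xf τ z - rr τ) * (Xf τ z - pp τ))) z :=
    (analyticAt_const.mul ((hXa.mul (hXa.sub analyticAt_const)).mul
      (hXa.sub analyticAt_const))).continuousAt
  refine eq_of_eventually_ne (g := fun z => deriv (Xf τ) z ^ 2)
    (h := fun z => K * (Xf τ z * (Xf τ z - rr τ) * (Xf τ z - pp τ))) ha1 ha2 ?_
  have hne : ∀ᶠ w in 𝓝[≠] z, C w ≠ 0 :=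
    (meromorphicOrderAt_ne_top_iff_eventually_ne_zero (hCm z)).mp (by rw [hCo]; simp)
  filter_upwards [hK z, hne] with w hw hw0
  have e : C w = Xf τ w * (Xf τ w - rr τ) * (Xf τ w - pp τ) := by
    simp only [hC, Pi.mul_apply]
    rw [hh0, Xf_half hτ, sub_zero]
    rfl
  rw [← e, ← hw]
  simp only [hQ, Pi.div_apply, Pi.mul_apply]
  field_simp

lemma deriv_Th_zero : deriv (Th τ) 0 = -(2 * Real.pi * I) * qp (ee τ) (ee τ) ^ 2 := by
  set U : ℂ → ℂ := fun z => qp (ee τ) (ee τ * ee z) * qp (ee τ) (ee τ * (ee z)⁻¹) with hU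
  have hUd : Differentiable ℂ U := by
    have h1 := qp_differentiable (norm_q_lt hτ)
    refine (h1.comp (differentiable_ee.const_mul _)).mul (h1.comp ?_)
    exact (differentiable_ee.inv (fun z => ee_ne_zero z)).const_mul _
  have h1 : HasDerivAt (fun z => 1 - ee z) (-(2 * Real.pi * I)) 0 := by
    have := (differentiable_ee 0).hasDerivAt
    rw [deriv_ee, ee_zero, mul_one] at this
    simpa using this.const_sub 1
  have h2 := (hUd 0).hasDerivAt
  have h3 := h1.mul h2
  have e : Th τ = (fun z => 1 - ee z) * U := by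
    funext z; exact Th_factor hτ z
  rw [e, h3.deriv]
  simp [hU, ee_zero]
  ring

/-- the differential equation with the explicit constant -/
lemma ode {z : ℂ} (hz : ¬ Lat τ z) :
    deriv (Xf τ) z ^ 2 = KK τ * (Xf τ z * (Xf τ z - rr τ) * (Xf τ z - pp τ)) := by
  obtain ⟨K, hK0, hK⟩ := ode_exists hτ
  suffices h : K = KK τ by rw [← h]; exact hK z hz
  have hT : Differentiable ℂ (Th τ) := Th_differentiable hτ
  have hdT : Differentiable ℂ (deriv (Th τ)) := fun z => (Th_analyticAt hτ z).deriv.differentiableAt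
  set S : ℂ → ℂ := fun z => Th τ (z - 1 / 2) with hS
  have hSd : Differentiable ℂ S := hT.comp (by fun_prop)
  have hdS : Differentiable ℂ (deriv S) := by
    intro z
    have : AnalyticAt ℂ S z := hSd.analyticAt z
    exact this.deriv.differentiableAt
  set F1 : ℂ → ℂ := fun z => 4 * (deriv S z * Th τ z - S z * deriv (Th τ) z) ^ 2 with hF1
  set F2 : ℂ → ℂ := fun z => K * ((S z ^ 2 - rr τ * Th τ z ^ 2) * (S z ^ 2 - pp τ * Th τ z ^ 2))
    with hF2
  have c1 : ContinuousAt F1 0 := by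
    have : Continuous F1 := by
      have a := hT.continuous; have b := hdT.continuous; have c := hSd.continuous
      have d := hdS.continuous
      fun_prop
    exact this.continuousAt
  have c2 : ContinuousAt F2 0 := by
    have : Continuous F2 := by
      have a := hT.continuous; have c := hSd.continuous
      fun_prop
    exact this.continuousAt
  have key : F1 =ᶠ[𝓝[≠] 0] F2 := by
    have h1 : ∀ᶠ w in 𝓝[≠] (0 : ℂ), Th τ w ≠ 0 := by
      exact (meromorphicOrderAt_ne_top_iff_eventually_ne_zero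
        (Th_analyticAt hτ 0).meromorphicAt).mp (by rw [Th_order_zero hτ]; exact WithTop.one_ne_top)
    have h2 : ∀ᶠ w in 𝓝[≠] (0 : ℂ), S w ≠ 0 := by
      refine eventually_nhdsWithin_of_eventually_nhds (hSd.continuous.continuousAt.eventually_ne ?_)
      simp only [hS]
      rw [Ne, Th_eq_zero_iff hτ, zero_sub]
      intro h
      exact not_lat_oneHalf hτ (by simpa using h.neg)
    filter_upwards [h1, h2] with w hw1 hw2
    have hode := hK w (by rwa [Ne, Th_eq_zero_iff hτ] at hw1)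
    have hd : deriv (Xf τ) w = 2 * S w * (deriv S w * Th τ w - S w * deriv (Th τ) w) / Th τ w ^ 3 := by
      have e : Xf τ = fun z => S z ^ 2 / Th τ z ^ 2 := by
        funext z; rw [Xf_eq, ← div_eq_mul_inv]
      have d1 : HasDerivAt (fun z => S z ^ 2) (2 * S w * deriv S w) w := by
        simpa using (hSd w).hasDerivAt.fun_pow 2
      have d2 : HasDerivAt (fun z => Th τ z ^ 2) (2 * Th τ w * deriv (Th τ) w) w := by
        simpa using (hT w).hasDerivAt.fun_pow 2
      have := (d1.div d2 (pow_ne_zero 2 hw1)).deriv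
      rw [e]
      have e2 : (fun z => S z ^ 2 / Th τ z ^ 2) = (fun z => S z ^ 2) / fun z => Th τ z ^ 2 := rfl
      rw [e2, this]
      field_simp
    have hX : Xf τ w = S w ^ 2 / Th τ w ^ 2 := by rw [Xf_eq, ← div_eq_mul_inv]
    rw [hd, hX] at hode
    simp only [hF1, hF2]
    field_simp at hode
    linear_combination hode
  have h0 := eq_of_eventually_ne c1 c2 key
  simp only [hF1, hF2] at h0
  have hT0 : Th τ 0 = 0 := (Th_eq_zero_iff hτ 0).mpr (Lat_zero τ)
  have hS0 : S 0 = Th τ (1 / 2) := by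
    simp only [hS]; rw [Th_sub_half, zero_add]
  have hS0' : Th τ (1 / 2) ≠ 0 := by
    rw [Ne, Th_eq_zero_iff hτ]; exact not_lat_oneHalf hτ
  rw [hT0, hS0, deriv_Th_zero hτ] at h0
  unfold KK
  field_simp
  have hS2 : Th τ (1 / 2) ^ 2 ≠ 0 := pow_ne_zero 2 hS0'
  apply mul_left_cancel₀ hS2
  linear_combination -h0

lemma KK_ne_zero : KK τ ≠ 0 := by
  obtain ⟨K, hK0, hK⟩ := ode_exists hτ
  intro h
  -- choose a point where the cubic does not vanish
  obtain ⟨x, hx⟩ : ∃ x : ℂ, x * (x - rr τ) * (x - pp τ) ≠ 0 := by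
    obtain ⟨x, hx⟩ := ({0, rr τ, pp τ} : Set ℂ).toFinite.infinite_compl.nonempty
    simp only [mem_compl_iff, mem_insert_iff, mem_singleton_iff, not_or] at hx
    exact ⟨x, mul_ne_zero (mul_ne_zero hx.1 (sub_ne_zero.mpr hx.2.1)) (sub_ne_zero.mpr hx.2.2)⟩
  obtain ⟨z, hz, hzx⟩ := Xf_surj hτ x
  have h1 := hK z hz
  rw [ode hτ hz, h, zero_mul, hzx] at h1
  exact mul_ne_zero hK0 hx h1.symm

end

end Pool.Agent.Helper21.K1
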