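import Pool.Agent.Helper21.K1.Ode

/-! # The even function `g(w) = log |(w-1)/(w+1)| / conj w` -/

noncomputable section

namespace Pool.Agent.Helper21.K1

open Complex Filter Topology Set Metric Bornology MeasureTheory
open Pool.Agent.Helper21.Reg
open scoped ComplexConjugate

/-- `log |(w-1)/(w+1)| / conj w` -/
def gg (w : ℂ) : ℂ := (Real.log ‖(w - 1) / (w + 1)‖ : ℂ) * conj w⁻¹

lemma gg_neg (w : ℂ) : gg (-w) = gg w := by
  unfold gg
  have e : (-w - 1) / (-w + 1) = ((w - 1) / (w + 1))⁻¹ := by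
    rw [inv_div, show -w - 1 = -(w + 1) by ring, show -w + 1 = -(w - 1) by ring, neg_div_neg_eq]
  rw [e, norm_inv, Real.log_inv, inv_neg, map_neg]
  push_cast
  ring

lemma gg_of_sq {v w : ℂ} (h : v ^ 2 = w ^ 2) : gg v = gg w := by
  rcases sq_eq_sq_iff_eq_or_eq_neg.mp h with h | h
  · rw [h]
  · rw [h, gg_neg]

lemma abs_log_ratio {a b t : ℝ} (ha : 1 / 2 ≤ a) (hb : 1 / 2 ≤ b) (h : |b - a| ≤ 2 * t) :
    |Real.log a - Real.log b| ≤ 4 * t := by
  have ha' : 0 < a := by linarith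
  have hb' : 0 < b := by linarith
  have key : ∀ x y : ℝ, 1 / 2 ≤ x → 1 / 2 ≤ y → |y - x| ≤ 2 * t →
      Real.log y - Real.log x ≤ 4 * t := by
    intro x y hx hy hxy
    have hx' : 0 < x := by linarith
    have hy' : 0 < y := by linarith
    have h1 : Real.log y - Real.log x = Real.log (y / x) := (Real.log_div hy'.ne' hx'.ne').symm
    rw [h1]
    have h2 := Real.log_le_sub_one_of_pos (div_pos hy' hx')
    have h3 : y / x - 1 = (y - x) / x := by field_simp
    rw [h3] at h2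
    have h4 : (y - x) / x ≤ |y - x| / x := by gcongr; exact le_abs_self _
    have h5 : |y - x| / x ≤ (2 * t) / (1 / 2) := by
      have : 0 ≤ 2 * t := le_trans (abs_nonneg _) hxy
      gcongr
    linarith
  rw [abs_le]
  constructor
  · have := key a b ha hb h
    linarith
  · have := key b a hb ha (by rw [abs_sub_comm]; exact h)
    linarith

lemma gg_bound_aux {w : ℂ} (h1 : w ≠ 1) (hlt : ‖w - 1‖ < 1 / 2) :
    ‖gg w‖ ≤ 4 + 2 * |Real.log ‖w ^ 2 - 1‖| := by
  have hw : 1 / 2 ≤ ‖w‖ := by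
    have : ‖(1 : ℂ)‖ ≤ ‖w‖ + ‖w - 1‖ := by
      have := norm_sub_le w (w - 1)
      simpa using this
    rw [norm_one] at this
    linarith
  have hb1 : 3 / 2 ≤ ‖w + 1‖ := by
    have : ‖(2 : ℂ)‖ ≤ ‖w + 1‖ + ‖w - 1‖ := by
      have := norm_sub_le (w + 1) (w - 1)
      rwa [show w + 1 - (w - 1) = 2 by ring] at this
    simp at this
    linarith
  have hb2 : ‖w + 1‖ ≤ 5 / 2 := by
    have : ‖w + 1‖ ≤ ‖w - 1‖ + ‖(2 : ℂ)‖ := by
      have := norm_add_le (w - 1) 2
      rwa [show w - 1 + 2 = w + 1 by ring] at this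
    simp at this
    linarith
  have hne : w - 1 ≠ 0 := sub_ne_zero.mpr h1
  have ha0 : 0 < ‖w - 1‖ := norm_pos_iff.mpr hne
  have hb0 : 0 < ‖w + 1‖ := by linarith
  have e1 : Real.log ‖w ^ 2 - 1‖ = Real.log ‖w - 1‖ + Real.log ‖w + 1‖ := by
    rw [show w ^ 2 - 1 = (w - 1) * (w + 1) by ring, norm_mul, Real.log_mul ha0.ne' hb0.ne']
  have hlogb : |Real.log ‖w + 1‖| ≤ 1 := by
    have := Real.log_le_sub_one_of_pos (x := ‖w + 1‖ / 2) (by positivity)
    rw [Real.log_div hb0.ne' (by norm_num)] at this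
    have l2 : Real.log 2 < 0.7 := by have := Real.log_two_lt_d9; linarith
    have l3 : 0 ≤ Real.log ‖w + 1‖ := Real.log_nonneg (by linarith)
    rw [abs_of_nonneg l3]
    linarith
  have hn : ‖gg w‖ = |Real.log ‖w - 1‖ - Real.log ‖w + 1‖| * ‖w‖⁻¹ := by
    unfold gg
    rw [norm_mul, Complex.norm_real, Real.norm_eq_abs, norm_div, Real.log_div ha0.ne' hb0.ne',
      RCLike.norm_conj, norm_inv]
  rw [hn]
  have h3 : |Real.log ‖w - 1‖ - Real.log ‖w + 1‖| ≤ |Real.log ‖w ^ 2 - 1‖| + 2 := by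
    have e2 : Real.log ‖w - 1‖ - Real.log ‖w + 1‖ =
        Real.log ‖w ^ 2 - 1‖ - 2 * Real.log ‖w + 1‖ := by rw [e1]; ring
    rw [e2]
    calc |Real.log ‖w ^ 2 - 1‖ - 2 * Real.log ‖w + 1‖|
        ≤ |Real.log ‖w ^ 2 - 1‖| + |2 * Real.log ‖w + 1‖| := abs_sub _ _
      _ ≤ |Real.log ‖w ^ 2 - 1‖| + 2 := by
        rw [abs_mul, abs_of_pos (by norm_num : (0 : ℝ) < 2)]
        linarith
  have h4 : ‖w‖⁻¹ ≤ 2 := by
    rw [inv_le_comm₀ (by linarith) (by norm_num)]
    linarith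
  calc |Real.log ‖w - 1‖ - Real.log ‖w + 1‖| * ‖w‖⁻¹
      ≤ (|Real.log ‖w ^ 2 - 1‖| + 2) * 2 := by
        gcongr
    _ = 4 + 2 * |Real.log ‖w ^ 2 - 1‖| := by ring

lemma gg_bound {w : ℂ} (h : w ^ 2 ≠ 1) : ‖gg w‖ ≤ 4 + 2 * |Real.log ‖w ^ 2 - 1‖| := by
  have hp : w ≠ 1 := by rintro rfl; simp at h
  have hm : w ≠ -1 := by rintro rfl; simp at h
  by_cases c1 : ‖w - 1‖ < 1 / 2
  · exact gg_bound_aux hp c1
  by_cases c2 : ‖w + 1‖ < 1 / 2
  · have := gg_bound_aux (w := -w) (by intro h2; apply hm; rw [← h2]; ring) (by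
      rwa [show -w - 1 = -(w + 1) by ring, norm_neg])
    rwa [gg_neg, neg_sq] at this
  push Not at c1 c2
  have h1 : |‖w + 1‖ - ‖w - 1‖| ≤ 2 * ‖w‖ := by
    have := abs_norm_sub_norm_le (w + 1) (1 - w)
    rw [show w + 1 - (1 - w) = 2 * w by ring, norm_mul, norm_sub_rev 1 w] at this
    simpa using this
  have h2 := abs_log_ratio c1 c2 h1
  have ha0 : 0 < ‖w - 1‖ := by linarith
  have hb0 : 0 < ‖w + 1‖ := by linarith
  have hn : ‖gg w‖ = |Real.log ‖w - 1‖ - Real.log ‖w + 1‖| * ‖w‖⁻¹ := by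
    unfold gg
    rw [norm_mul, Complex.norm_real, Real.norm_eq_abs, norm_div, Real.log_div ha0.ne' hb0.ne',
      RCLike.norm_conj, norm_inv]
  rw [hn]
  have h3 : |Real.log ‖w - 1‖ - Real.log ‖w + 1‖| * ‖w‖⁻¹ ≤ 4 := by
    rcases eq_or_ne w 0 with rfl | hw
    · simp
    · have hw0 : 0 < ‖w‖ := norm_pos_iff.mpr hw
      rw [← div_eq_mul_inv, div_le_iff₀ hw0]
      exact h2
  have := abs_nonneg (Real.log ‖w ^ 2 - 1‖)
  linarith

lemma gg_re (w : ℂ) : (gg w).re = Real.log ‖(w - 1) / (w + 1)‖ * (w.re / normSq w) := by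
  unfold gg
  rw [Complex.re_ofReal_mul, Complex.conj_re, Complex.inv_re]

lemma norm_lt_iff_re (w : ℂ) : ‖w - 1‖ < ‖w + 1‖ ↔ 0 < w.re := by
  rw [← sq_lt_sq₀ (norm_nonneg _) (norm_nonneg _), ← Complex.normSq_eq_norm_sq,
    ← Complex.normSq_eq_norm_sq]
  simp only [normSq_apply, sub_re, one_re, sub_im, one_im, sub_zero, add_re, add_im, add_zero]
  constructor
  · intro h; nlinarith
  · intro h; nlinarith

lemma gg_re_neg_of_pos {w : ℂ} (h0 : 0 < w.re) (h1 : w ≠ 1) : (gg w).re < 0 := by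
  rw [gg_re]
  have h2 := (norm_lt_iff_re w).mpr h0
  have h3 : 0 < ‖w + 1‖ := lt_of_le_of_lt (norm_nonneg _) h2
  have h4 : 0 < ‖w - 1‖ := norm_pos_iff.mpr (sub_ne_zero.mpr h1)
  have h5 : Real.log ‖(w - 1) / (w + 1)‖ < 0 := by
    rw [norm_div]
    exact Real.log_neg (div_pos h4 h3) ((div_lt_one h3).mpr h2)
  have h6 : 0 < normSq w := normSq_pos.mpr (by rintro rfl; simp at h0)
  exact mul_neg_of_neg_of_pos h5 (div_pos h0 h6)

lemma gg_re_nonpos (w : ℂ) : (gg w).re ≤ 0 := by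
  rcases lt_trichotomy w.re 0 with h | h | h
  · by_cases h1 : -w = 1
    · have : w = -1 := by rw [← h1]; ring
      rw [gg_re, this]
      norm_num
    · rw [← gg_neg]
      exact (gg_re_neg_of_pos (by simpa using h) h1).le
  · rw [gg_re, h]; simp
  · by_cases h1 : w = 1
    · rw [gg_re, h1]; simp
    · exact (gg_re_neg_of_pos h h1).le

lemma gg_continuousAt {w : ℂ} (h0 : w ≠ 0) (h1 : w ^ 2 ≠ 1) : ContinuousAt gg w := by
  have hp : w - 1 ≠ 0 := by intro h; apply h1; rw [sub_eq_zero.mp h]; ring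
  have hm : w + 1 ≠ 0 := by
    intro h; apply h1
    rw [show w = -1 from eq_neg_of_add_eq_zero_left h]; ring
  unfold gg
  refine ContinuousAt.mul ?_ ?_
  · refine Complex.continuous_ofReal.continuousAt.comp ?_
    refine ContinuousAt.log ?_ (norm_ne_zero_iff.mpr (div_ne_zero hp hm))
    exact ContinuousAt.norm (ContinuousAt.div (by fun_prop) (by fun_prop) hm)
  · exact Complex.continuous_conj.continuousAt.comp (continuousAt_inv₀ h0)

/-- `g` as a function of `u = w²`. -/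
def gs (u : ℂ) : ℂ := gg (u ^ (1 / 2 : ℂ))

lemma half_sq (u : ℂ) : (u ^ (1 / 2 : ℂ)) ^ 2 = u := by
  rw [← Complex.cpow_nat_mul]
  norm_num

lemma gs_sq (w : ℂ) : gs (w ^ 2) = gg w := gg_of_sq (half_sq _)

lemma gs_eq {u v : ℂ} (h : v ^ 2 = u) : gs u = gg v := by rw [← h, gs_sq]

lemma gs_bound {u : ℂ} (h : u ≠ 1) : ‖gs u‖ ≤ 4 + 2 * |Real.log ‖u - 1‖| := by
  have := gg_bound (w := u ^ (1 / 2 : ℂ)) (by rwa [half_sq])
  rwa [half_sq] at this

lemma gs_re_nonpos (u : ℂ) : (gs u).re ≤ 0 := gg_re_nonpos _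

lemma gs_continuousAt {u : ℂ} (h0 : u ≠ 0) (h1 : u ≠ 1) : ContinuousAt gs u := by
  by_cases hu : u ∈ slitPlane
  · have hc : ContinuousAt (fun u : ℂ => u ^ (1 / 2 : ℂ)) u :=
      continuousAt_id.cpow continuousAt_const hu
    have h2 : u ^ (1 / 2 : ℂ) ≠ 0 := by
      intro h
      have := half_sq u
      rw [h] at this
      apply h0; rw [← this]; ring
    exact ContinuousAt.comp (g := gg) (f := fun u : ℂ => u ^ (1 / 2 : ℂ))
      (gg_continuousAt h2 (by rwa [half_sq])) hc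
  · have hu' : -u ∈ slitPlane := by
      rw [mem_slitPlane_iff] at hu ⊢
      push Not at hu
      left
      rcases lt_or_eq_of_le hu.1 with h | h
      · simpa using h
      · exact absurd (Complex.ext h hu.2) h0
    have e : gs = fun u : ℂ => gg (I * (-u) ^ (1 / 2 : ℂ)) := by
      funext v
      refine gs_eq ?_
      rw [mul_pow, half_sq, I_sq]; ring
    have hc : ContinuousAt (fun u : ℂ => I * (-u) ^ (1 / 2 : ℂ)) u := by
      refine continuousAt_const.mul ?_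
      exact (continuousAt_id.neg).cpow continuousAt_const hu'
    have hsq : (I * (-u) ^ (1 / 2 : ℂ)) ^ 2 = u := by
      rw [mul_pow, half_sq, I_sq]; ring
    have h2 : I * (-u) ^ (1 / 2 : ℂ) ≠ 0 := by
      intro h
      rw [h] at hsq
      apply h0; rw [← hsq]; ring
    rw [e]
    exact ContinuousAt.comp (g := gg) (f := fun u : ℂ => I * (-u) ^ (1 / 2 : ℂ))
      (gg_continuousAt h2 (by rwa [hsq])) hc

lemma gs_measurable : Measurable gs := by
  unfold gs gg
  have h : Measurable fun u : ℂ => u ^ (1 / 2 : ℂ) := by fun_prop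
  refine Measurable.mul ?_ ?_
  · refine Complex.measurable_ofReal.comp (Real.measurable_log.comp ?_)
    exact ((h.sub_const 1).div (h.add_const 1)).norm
  · exact Complex.continuous_conj.measurable.comp h.inv

/-- strict negativity near `u = 1` -/
lemma gs_re_neg {u : ℂ} (h : ‖u - 1‖ < 1) (h1 : u ≠ 1) : (gs u).re < 0 := by
  have hre : 0 < u.re := by
    have h2 := Complex.abs_re_le_norm (u - 1)
    rw [sub_re, one_re] at h2
    have h3 := (abs_lt.mp (lt_of_le_of_lt h2 h)).1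
    linarith
  have hu : u ∈ slitPlane := Or.inl hre
  have hu0 : u ≠ 0 := by rintro rfl; simp at hre
  have h4 : 0 < (u ^ (1 / 2 : ℂ)).re := by
    have harg : |u.arg| < Real.pi / 2 := Complex.abs_arg_lt_pi_div_two_iff.mpr (Or.inl hre)
    rw [Complex.cpow_def_of_ne_zero hu0, Complex.exp_re]
    refine mul_pos (Real.exp_pos _) (Real.cos_pos_of_mem_Ioo ?_)
    have e : (Complex.log u * (1 / 2 : ℂ)).im = u.arg / 2 := by
      have : (1 / 2 : ℂ) = ((1 / 2 : ℝ) : ℂ) := by push_cast; ring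
      rw [this, mul_comm, Complex.im_ofReal_mul, Complex.log_im]
      ring
    rw [e]
    have := abs_lt.mp harg
    constructor <;> linarith [Real.pi_pos]
  refine gg_re_neg_of_pos h4 ?_
  intro h5
  apply h1
  have := half_sq u
  rw [h5] at this
  simpa using this.symm

end Pool.Agent.Helper21.K1
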