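import Pool.Agent.Helper21.K1.Phi

/-! # The period integral `Φ(μ)` : continuity and sign -/

noncomputable section

namespace Pool.Agent.Helper21.K1

open Complex Filter Topology Set Metric Bornology MeasureTheory
open Pool.Agent.Helper21.Reg
open scoped ComplexConjugate

/-- the function `X` in period coordinates -/
def XX (τ : ℂ) (p : ℝ × ℝ) : ℂ := Xf τ (zt τ p)

section
variable {τ : ℂ} (hτ : 0 < τ.im)
include hτ

lemma XX_measurable : Measurable (XX τ) := by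
  have e : XX τ = fun p => Th τ (zt τ p - 1 / 2) ^ 2 * (Th τ (zt τ p - 0) ^ 2)⁻¹ := by
    funext p; unfold XX; rw [Xf_eq, sub_zero]
  rw [e]
  exact ((measurable_Th hτ (1 / 2)).pow_const 2).mul ((measurable_Th hτ 0).pow_const 2).inv

lemma ae_not_lat (P : ℂ) : ∀ᵐ p ∂(nu.prod nu), ¬ Lat τ (zt τ p - P) := by
  filter_upwards [ae_Th_ne hτ P] with p hp
  rwa [Ne, Th_eq_zero_iff hτ] at hp

lemma ae_not_lat0 : ∀ᵐ p ∂(nu.prod nu), ¬ Lat τ (zt τ p) := by
  filter_upwards [ae_not_lat hτ 0] with p hp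
  rwa [sub_zero] at hp

lemma ae_XX_ne (v : ℂ) : ∀ᵐ p ∂(nu.prod nu), XX τ p ≠ v := by
  obtain ⟨D, hD, rfl⟩ := Xf_surj hτ v
  filter_upwards [ae_not_lat0 hτ, ae_not_lat hτ D, ae_not_lat hτ (-D)] with p h0 h1 h2
  unfold XX
  rw [Ne, Xf_eq_iff hτ hD h0]
  rw [sub_neg_eq_add] at h2
  tauto

lemma log_XX_integrable {D : ℂ} (hD : ¬ Lat τ D) :
    Integrable (fun p => Real.log ‖XX τ p - Xf τ D‖) (nu.prod nu) := by
  obtain ⟨c, hc, h⟩ := Xf_sub hτ hD
  have i0 : Integrable (fun _ : ℝ × ℝ => Real.log ‖c‖) (nu.prod nu) := integrable_const _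
  have i1 := locInt_nu (logTh_locInt hτ D)
  have i2 := locInt_nu (logTh_locInt hτ (-D))
  have i3 := (locInt_nu (logTh_locInt hτ 0)).const_mul 2
  refine (((i0.add i1).add i2).sub i3).congr ?_
  filter_upwards [ae_Th_ne hτ 0, ae_Th_ne hτ D, ae_Th_ne hτ (-D)] with p h0 h1 h2
  have hz : ¬ Lat τ (zt τ p) := by rwa [Ne, Th_eq_zero_iff hτ, sub_zero] at h0
  unfold XX
  rw [h _ hz]
  have e : ph τ D (zt τ p) = Th τ (zt τ p - D) * (Th τ (zt τ p - 0) ^ 2)⁻¹ *
      Th τ (zt τ p - (-D)) := by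
    unfold ph
    rw [phi_eq, zero_add, zero_sub]
  rw [e, norm_mul, norm_mul, norm_mul, norm_inv, norm_pow]
  have n0 := norm_pos_iff.mpr h0
  have n1 := norm_pos_iff.mpr h1
  have n2 := norm_pos_iff.mpr h2
  have nc := norm_pos_iff.mpr hc
  rw [Real.log_mul nc.ne' (by positivity), Real.log_mul (by positivity) n2.ne',
    Real.log_mul n1.ne' (by positivity), Real.log_inv, Real.log_pow]
  simp only [Pi.add_apply, Pi.sub_apply]
  push_cast
  ring

/-- `u = (X - μ)/(X - λ)` -/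
def uu (τ lam mu : ℂ) (p : ℝ × ℝ) : ℂ := (XX τ p - mu) / (XX τ p - lam)

/-- the integral -/
def Phi (τ lam mu : ℂ) : ℂ := ∫ p, gs (uu τ lam mu p) ∂(nu.prod nu)

lemma uu_measurable (lam mu : ℂ) : Measurable (uu τ lam mu) :=
  ((XX_measurable hτ).sub_const mu).div ((XX_measurable hτ).sub_const lam)

omit hτ in
lemma uu_sub_one {lam mu : ℂ} {p : ℝ × ℝ} (h : XX τ p ≠ lam) :
    uu τ lam mu p - 1 = (lam - mu) / (XX τ p - lam) := by
  have := sub_ne_zero.mpr h
  unfold uu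
  field_simp
  ring

omit hτ in
lemma gs_uu_bound {lam mu : ℂ} (hne : lam ≠ mu) {p : ℝ × ℝ} (h : XX τ p ≠ lam) :
    ‖gs (uu τ lam mu p)‖ ≤ 4 + 2 * (|Real.log ‖lam - mu‖| + |Real.log ‖XX τ p - lam‖|) := by
  have h1 := norm_pos_iff.mpr (sub_ne_zero.mpr h)
  have h2 := norm_pos_iff.mpr (sub_ne_zero.mpr hne)
  have hu : uu τ lam mu p ≠ 1 := by
    rw [← sub_ne_zero, uu_sub_one h]
    exact div_ne_zero (sub_ne_zero.mpr hne) (sub_ne_zero.mpr h)
  refine (gs_bound hu).trans ?_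
  rw [uu_sub_one h, norm_div, Real.log_div h2.ne' h1.ne']
  have := abs_sub (Real.log ‖lam - mu‖) (Real.log ‖XX τ p - lam‖)
  linarith

lemma gs_uu_integrable {D mu : ℂ} (hD : ¬ Lat τ D) (hne : Xf τ D ≠ mu) :
    Integrable (fun p => gs (uu τ (Xf τ D) mu p)) (nu.prod nu) := by
  have i1 := (log_XX_integrable hτ hD).abs
  have i2 : Integrable (fun p => 4 + 2 * (|Real.log ‖Xf τ D - mu‖| +
      |Real.log ‖XX τ p - Xf τ D‖|)) (nu.prod nu) :=
    (integrable_const _).add (((integrable_const _).add i1).const_mul 2)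
  refine i2.mono' (gs_measurable.comp (uu_measurable hτ _ _)).aestronglyMeasurable ?_
  filter_upwards [ae_XX_ne hτ (Xf τ D)] with p hp
  exact gs_uu_bound hne hp

lemma Phi_continuousAt {D mu : ℂ} (hD : ¬ Lat τ D) (hne : Xf τ D ≠ mu) :
    ContinuousAt (Phi τ (Xf τ D)) mu := by
  have i1 := (log_XX_integrable hτ hD).abs
  have hc : ContinuousAt (fun m : ℂ => |Real.log ‖Xf τ D - m‖|) mu := by
    refine ContinuousAt.abs (ContinuousAt.log ?_ (norm_ne_zero_iff.mpr (sub_ne_zero.mpr hne)))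
    fun_prop
  have hev : ∀ᶠ m in 𝓝 mu, |Real.log ‖Xf τ D - m‖| < |Real.log ‖Xf τ D - mu‖| + 1 :=
    hc.eventually_lt_const (by linarith)
  have hev2 : ∀ᶠ m in 𝓝 mu, Xf τ D ≠ m := by
    have : ContinuousAt (fun m : ℂ => m) mu := continuousAt_id
    exact (this.eventually_ne hne.symm).mono fun m h => h.symm
  unfold Phi
  refine continuousAt_of_dominated (bound := fun p => 4 + 2 * ((|Real.log ‖Xf τ D - mu‖| + 1) +
      |Real.log ‖XX τ p - Xf τ D‖|)) ?_ ?_ ?_ ?_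
  · exact Eventually.of_forall fun m =>
      (gs_measurable.comp (uu_measurable hτ _ _)).aestronglyMeasurable
  · filter_upwards [hev, hev2] with m h1 h2
    filter_upwards [ae_XX_ne hτ (Xf τ D)] with p hp
    refine (gs_uu_bound h2 hp).trans ?_
    linarith
  · exact (integrable_const _).add (((integrable_const _).add i1).const_mul 2)
  · filter_upwards [ae_XX_ne hτ (Xf τ D), ae_XX_ne hτ mu] with p hp hp2
    have hu0 : uu τ (Xf τ D) mu p ≠ 0 :=
      div_ne_zero (sub_ne_zero.mpr hp2) (sub_ne_zero.mpr hp)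
    have hu1 : uu τ (Xf τ D) mu p ≠ 1 := by
      rw [← sub_ne_zero, uu_sub_one hp]
      exact div_ne_zero (sub_ne_zero.mpr hne) (sub_ne_zero.mpr hp)
    refine ContinuousAt.comp (g := gs) (f := fun m => uu τ (Xf τ D) m p)
      (gs_continuousAt hu0 hu1) ?_
    unfold uu
    fun_prop

lemma Xf_tendsto : Tendsto (Xf τ) (𝓝[≠] 0) (cobounded ℂ) := by
  apply tendsto_cobounded_of_meromorphicOrderAt_neg
  rw [Xf_order_pole hτ (Lat_zero τ)]
  exact_mod_cast (by norm_num : (-2 : ℤ) < 0)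

/-- near the pole `u` is close to `1` -/
lemma exists_square (lam mu : ℂ) : ∃ ε : ℝ, 0 < ε ∧ ε < 1 ∧ ∀ p ∈ Ioo (0 : ℝ) ε ×ˢ Ioo (0 : ℝ) ε,
    ‖uu τ lam mu p - 1‖ < 1 ∧ XX τ p ≠ lam := by
  have h1 : ∀ᶠ z in 𝓝[≠] (0 : ℂ), ‖lam - mu‖ + ‖lam‖ + 1 < ‖Xf τ z‖ :=
    (tendsto_norm_cobounded_atTop.comp (Xf_tendsto hτ)).eventually (eventually_gt_atTop _)
  rw [eventually_nhdsWithin_iff] at h1
  have h2 : ContinuousAt (zt τ) (0, 0) := (continuous_zt τ).continuousAt
  have h0 : zt τ (0, 0) = 0 := by simp [zt]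
  rw [← h0] at h1
  have h3 := h2.eventually h1
  obtain ⟨ε, hε, hball⟩ := Metric.eventually_nhds_iff_ball.mp h3
  refine ⟨min ε (1 / 2), by positivity, by
    refine lt_of_le_of_lt (min_le_right _ _) (by norm_num), fun p hp => ?_⟩
  obtain ⟨⟨ha, ha'⟩, ⟨hb, hb'⟩⟩ := hp
  have hmem : p ∈ ball ((0 : ℝ), (0 : ℝ)) ε := by
    rw [mem_ball, Prod.dist_eq, max_lt_iff, Real.dist_eq, Real.dist_eq, sub_zero, sub_zero,
      abs_of_pos ha, abs_of_pos hb]
    exact ⟨lt_of_lt_of_le ha' (min_le_left _ _), lt_of_lt_of_le hb' (min_le_left _ _)⟩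
  have hz : zt τ p ∈ ({zt τ (0, 0)} : Set ℂ)ᶜ := by
    rw [h0, mem_compl_singleton_iff]
    intro h
    have := congrArg Complex.im h
    simp [zt] at this
    rcases this with h4 | h4
    · exact absurd h4 hb.ne'
    · exact absurd h4 hτ.ne'
  have h5 := hball p hmem hz
  have h6 : XX τ p ≠ lam := by
    intro h
    unfold XX at h
    rw [h] at h5
    have := norm_nonneg (lam - mu)
    linarith
  refine ⟨?_, h6⟩
  rw [uu_sub_one h6, norm_div, div_lt_one (norm_pos_iff.mpr (sub_ne_zero.mpr h6))]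
  have h7 : ‖XX τ p‖ ≤ ‖XX τ p - lam‖ + ‖lam‖ := by
    have := norm_add_le (XX τ p - lam) lam
    rwa [sub_add_cancel] at this
  unfold XX at h7 ⊢
  linarith

lemma Phi_re_neg {D mu : ℂ} (hD : ¬ Lat τ D) (hne : Xf τ D ≠ mu) : (Phi τ (Xf τ D) mu).re < 0 := by
  have hi := gs_uu_integrable hτ hD hne
  have e : (Phi τ (Xf τ D) mu).re = ∫ p, (gs (uu τ (Xf τ D) mu p)).re ∂(nu.prod nu) := by
    unfold Phi
    exact (reCLM.integral_comp_comm hi).symm
  rw [e]
  have hre : Integrable (fun p => (gs (uu τ (Xf τ D) mu p)).re) (nu.prod nu) := hi.re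
  have hpos : 0 < ∫ p, -(gs (uu τ (Xf τ D) mu p)).re ∂(nu.prod nu) := by
    refine (integral_pos_iff_support_of_nonneg
      (f := fun p => -(gs (uu τ (Xf τ D) mu p)).re) (fun p => by
      simpa using gs_re_nonpos _) hre.neg).mpr ?_
    obtain ⟨ε, h0, h1, hsq⟩ := exists_square hτ (Xf τ D) mu
    have hsub : Ioo (0 : ℝ) ε ×ˢ Ioo (0 : ℝ) ε ⊆
        Function.support fun p => -(gs (uu τ (Xf τ D) mu p)).re := by
      intro p hp
      obtain ⟨a1, a2⟩ := hsq p hp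
      have hu1 : uu τ (Xf τ D) mu p ≠ 1 := by
        rw [← sub_ne_zero, uu_sub_one a2]
        exact div_ne_zero (sub_ne_zero.mpr hne) (sub_ne_zero.mpr a2)
      have := gs_re_neg a1 hu1
      simp only [Function.mem_support]
      linarith
    refine lt_of_lt_of_le ?_ (measure_mono hsub)
    rw [Measure.prod_prod]
    have hnu : nu (Ioo (0 : ℝ) ε) = ENNReal.ofReal ε := by
      unfold nu
      rw [Measure.restrict_apply measurableSet_Ioo, inter_eq_left.mpr, Real.volume_Ioo, sub_zero]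
      intro x hx
      exact ⟨hx.1, by linarith [hx.2]⟩
    rw [hnu]
    have : 0 < ENNReal.ofReal ε := ENNReal.ofReal_pos.mpr h0
    exact ENNReal.mul_pos this.ne' this.ne'
  rw [integral_neg] at hpos
  linarith

/-- uniform negativity with a perturbed phase -/
lemma Phi_near {D mu : ℂ} (hD : ¬ Lat τ D) (hne : Xf τ D ≠ mu) :
    ∀ᶠ q : ℂ × ℂ in 𝓝 (mu, 1), (q.2 * Phi τ (Xf τ D) q.1).re < 0 := by
  have hc : ContinuousAt (fun q : ℂ × ℂ => (q.2 * Phi τ (Xf τ D) q.1).re) (mu, 1) := by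
    refine Complex.continuous_re.continuousAt.comp ?_
    refine continuousAt_snd.mul ?_
    exact ContinuousAt.comp (g := Phi τ (Xf τ D)) (f := fun q : ℂ × ℂ => q.1)
      (Phi_continuousAt hτ hD hne) continuousAt_fst
  refine hc.eventually_lt_const ?_
  simp only [one_mul]
  exact Phi_re_neg hτ hD hne

end

end Pool.Agent.Helper21.K1
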