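import Pool.Agent.Helper21.K1.Cycle

/-! # The classes in `CH²(E₁ × E₂, 1)` -/

noncomputable section

namespace Pool.Agent.Helper21.K1

open Complex Filter Topology Set Metric Bornology
open Pool.Agent.Helper21.Reg
open scoped ComplexConjugate

section
variable {L₁ L₂ : PeriodPair} {u τ₁ α τ₂ κ₀ : ℂ} (S : Setup L₁ L₂ u τ₁ α τ₂ κ₀)
include S

lemma ell_F1 : IsElliptic L₁ (F1 u τ₁) := sc_elliptic S.F (NEll_Xf S.F.hτ)

lemma ev_F2 (v y₀ : ℂ) : ∀ᶠ y in 𝓝[≠] y₀, ¬ Lat τ₂ (y / α) ∧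
    F2 (rr τ₁ * rr τ₂) α τ₂ y ≠ v := by
  filter_upwards [ev_sc S.hτ₂ S.hα (v / (rr τ₁ * rr τ₂)) y₀] with y hy
  refine ⟨hy.1, fun h => hy.2 ?_⟩
  rw [← h]
  unfold F2
  rw [mul_div_cancel_left₀ _ S.s0]

omit S in
lemma ne_top_of_ev {f : ℂ → ℂ} {z : ℂ} (hf : MeromorphicAt f z) (h : ∀ᶠ w in 𝓝[≠] z, f w ≠ 0) :
    meromorphicOrderAt f z ≠ ⊤ :=
  (meromorphicOrderAt_ne_top_iff_eventually_ne_zero hf).mpr h

lemma ell_F2 : IsElliptic L₂ (F2 (rr τ₁ * rr τ₂) α τ₂) where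
  mero z := (MeromorphicAt.const _ _).mul (sc_mero ((NEll_Xf S.hτ₂).mero _))
  ne_top z := by
    refine ne_top_of_ev ((MeromorphicAt.const _ _).mul (sc_mero ((NEll_Xf S.hτ₂).mero _))) ?_
    filter_upwards [ev_F2 S 0 z] with w hw
    exact hw.2
  periodic l hl z := by
    unfold F2
    rw [sc_apply, sc_apply, add_div, (NEll_Xf S.hτ₂).add_lat (S.sup l hl)]

lemma ev_d1 (z : ℂ) : ∀ᶠ x in 𝓝[≠] z, deriv (F1 u τ₁) x ≠ 0 := by
  filter_upwards [ev_sc S.F.hτ S.F.hu 0 z, ev_sc S.F.hτ S.F.hu (rr τ₁) z,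
    ev_sc S.F.hτ S.F.hu (pp τ₁) z] with x h0 h1 h2 h3
  have h4 := d1_sq S h0.1
  rw [h3] at h4
  have h5 : u⁻¹ ^ 2 * KK τ₁ * (F1 u τ₁ x * (F1 u τ₁ x - rr τ₁) * (F1 u τ₁ x - pp τ₁)) ≠ 0 :=
    mul_ne_zero (mul_ne_zero (pow_ne_zero 2 (inv_ne_zero S.F.hu)) S.KK1)
      (mul_ne_zero (mul_ne_zero h0.2 (sub_ne_zero.mpr h1.2)) (sub_ne_zero.mpr h2.2))
  apply h5
  rw [← h4]
  simp

lemma ev_d2 (z : ℂ) : ∀ᶠ y in 𝓝[≠] z, deriv (F2 (rr τ₁ * rr τ₂) α τ₂) y ≠ 0 := by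
  filter_upwards [ev_F2 S 0 z, ev_F2 S (rr τ₁) z, ev_F2 S (rr τ₁ * rr τ₂ ^ 2) z]
    with y h0 h1 h2 h3
  have h4 := d2_sq S h0.1
  rw [h3] at h4
  refine mul_ne_zero (mul_ne_zero (pow_ne_zero 2 (inv_ne_zero S.hα)) (div_ne_zero S.KK2 S.s0))
      (mul_ne_zero (mul_ne_zero h0.2 (sub_ne_zero.mpr h2.2)) (sub_ne_zero.mpr h1.2)) ?_
  rw [← h4]
  simp

omit S in
lemma deriv_periodic {f : ℂ → ℂ} {l : ℂ} (h : ∀ z, f (z + l) = f z) (z : ℂ) :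
    deriv f (z + l) = deriv f z := by
  rw [← deriv_comp_add_const]
  congr 1
  funext w
  exact h w

lemma ell_d1 {κ : ℂ} (hκ : κ ≠ 0) : IsElliptic L₁ (fun x => κ * deriv (F1 u τ₁) x) where
  mero z := (MeromorphicAt.const _ _).mul ((ell_F1 S).mero z).deriv
  ne_top z := by
    refine ne_top_of_ev ((MeromorphicAt.const _ _).mul ((ell_F1 S).mero z).deriv) ?_
    filter_upwards [ev_d1 S z] with w hw
    exact mul_ne_zero hκ hw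
  periodic l hl z := by
    rw [deriv_periodic ((ell_F1 S).periodic l hl)]

lemma ell_d2 : IsElliptic L₂ (deriv (F2 (rr τ₁ * rr τ₂) α τ₂)) where
  mero z := ((ell_F2 S).mero z).deriv
  ne_top z := ne_top_of_ev ((ell_F2 S).mero z).deriv (ev_d2 S z)
  periodic l hl z := deriv_periodic ((ell_F2 S).periodic l hl) z

omit S in
lemma ell_one (L : PeriodPair) : IsElliptic L (fun _ => 1) where
  mero z := MeromorphicAt.const _ _
  ne_top z := by rw [mOrd_of_ne analyticAt_const one_ne_zero]; simp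
  periodic _ _ _ := rfl

lemma rational_GG : IsRational L₁ L₂ (GG (u / α * κ₀) (F1 u τ₁) (F2 (rr τ₁ * rr τ₂) α τ₂)) := by
  have hκ : u / α * κ₀ ≠ 0 := mul_ne_zero (div_ne_zero S.F.hu S.hα) S.κ_ne
  refine ⟨fun x y => deriv (F2 (rr τ₁ * rr τ₂) α τ₂) y - (u / α * κ₀) * deriv (F1 u τ₁) x,
    fun x y => deriv (F2 (rr τ₁ * rr τ₂) α τ₂) y + (u / α * κ₀) * deriv (F1 u τ₁) x,
    ⟨[(fun _ => 1, deriv (F2 (rr τ₁ * rr τ₂) α τ₂)),
      (fun x => (-(u / α * κ₀)) * deriv (F1 u τ₁) x, fun _ => 1)], ?_, ?_⟩,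
    ⟨[(fun _ => 1, deriv (F2 (rr τ₁ * rr τ₂) α τ₂)),
      (fun x => (u / α * κ₀) * deriv (F1 u τ₁) x, fun _ => 1)], ?_, ?_⟩, fun x y => rfl⟩
  · intro t ht
    simp only [List.mem_cons, List.not_mem_nil, or_false] at ht
    rcases ht with rfl | rfl
    · exact ⟨ell_one L₁, ell_d2 S⟩
    · exact ⟨ell_d1 S (neg_ne_zero.mpr hκ), ell_one L₂⟩
  · intro x y
    simp
    ring
  · intro t ht
    simp only [List.mem_cons, List.not_mem_nil, or_false] at ht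
    rcases ht with rfl | rfl
    · exact ⟨ell_one L₁, ell_d2 S⟩
    · exact ⟨ell_d1 S hκ, ell_one L₂⟩
  · intro x y
    simp

/-- the class -/
lemma isK1 : IsK1 L₁ L₂ (F1 u τ₁) (F2 (rr τ₁ * rr τ₂) α τ₂)
    (GG (u / α * κ₀) (F1 u τ₁) (F2 (rr τ₁ * rr τ₂) α τ₂)) where
  elliptic₁ := ell_F1 S
  elliptic₂ := ell_F2 S
  nonconst₁ c h := by
    have h1 := ev_sc S.F.hτ S.F.hu c 0
    obtain ⟨x, hx1, hx2⟩ := (h.and h1).exists
    exact hx2.2 hx1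
  nonconst₂ c h := by
    have h1 := ev_F2 S c 0
    obtain ⟨x, hx1, hx2⟩ := (h.and h1).exists
    exact hx2.2 hx1
  rational := rational_GG S
  cycle x₀ y₀ := cycle_all S x₀ y₀

end

end Pool.Agent.Helper21.K1
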