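import Pool.Agent.Helper21.K1.Liou

/-! # The degree two function `Xf = Th(z - 1/2)² / Th(z)²` -/

noncomputable section

namespace Pool.Agent.Helper21.K1

open Complex Filter Topology Set Metric Bornology
open Pool.Agent.Helper21.Reg

variable {τ : ℂ}

/-- even elliptic function with a double zero at `1/2` and a double pole at `0`. -/
def Xf (τ : ℂ) : ℂ → ℂ := EF τ 0 [(1 / 2, 2), (0, -2)]

lemma Xf_eq (z : ℂ) : Xf τ z = Th τ (z - 1 / 2) ^ 2 * (Th τ z ^ 2)⁻¹ := by
  unfold Xf EF thProd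
  simp only [List.map_cons, List.map_nil, List.prod_cons, List.prod_nil, mul_one, Int.cast_zero,
    zero_mul, neg_zero, ee_zero, one_mul, sub_zero]
  congr 1

lemma Th_sub_half (z : ℂ) : Th τ (z - 1 / 2) = Th τ (z + 1 / 2) := by
  have := Th_add_one (τ := τ) (z - 1 / 2)
  rw [← this]
  congr 1
  ring

lemma ee_half : ee (1 / 2) = -1 := by
  unfold ee
  have : 2 * (Real.pi : ℂ) * I * (1 / 2) = Real.pi * I := by ring
  rw [this, Complex.exp_pi_mul_I]

section
variable (hτ : 0 < τ.im)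
include hτ

lemma NEll_Xf : NEll τ (Xf τ) := by
  refine NEll_EF hτ 0 1 _ (by simp [ddeg]) ?_
  simp [dsum]

lemma Xf_neg (z : ℂ) : Xf τ (-z) = Xf τ z := by
  rw [Xf_eq, Xf_eq]
  have e1 : Th τ (-z - 1 / 2) = -(ee (z + 1 / 2))⁻¹ * Th τ (z + 1 / 2) := by
    rw [← Th_neg hτ]; congr 1; ring
  rw [e1, Th_neg hτ, ee_add, ee_half, Th_sub_half]
  have := ee_ne_zero z
  by_cases hz : Th τ z = 0
  · simp [hz]
  · field_simp

lemma Xf_analyticAt {z : ℂ} (hz : ¬ Lat τ z) : AnalyticAt ℂ (Xf τ) z := by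
  have e : Xf τ = fun z => Th τ (z - 1 / 2) ^ 2 * (Th τ z ^ 2)⁻¹ := funext fun z => Xf_eq z
  rw [e]
  have h1 := Th_sub_analyticAt hτ (1 / 2) z
  have h2 := Th_analyticAt hτ z
  exact (h1.pow 2).mul ((h2.pow 2).inv (pow_ne_zero 2 (by rwa [Ne, Th_eq_zero_iff hτ])))

open Classical in
lemma Xf_order (z : ℂ) : meromorphicOrderAt (Xf τ) z =
    (((if Lat τ (z - 1 / 2) then 2 else 0) + (if Lat τ z then -2 else 0) : ℤ) : WithTop ℤ) := by
  unfold Xf
  rw [EF_order hτ, dord_pair, sub_zero]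

omit hτ in
lemma not_lat_one_half : ¬ Lat τ (1 / 2) ∨ τ.im ≤ 0 := by
  by_contra hcon
  push Not at hcon
  obtain ⟨⟨m, n, h⟩, hτ⟩ := hcon
  have h1 := congrArg Complex.im h
  simp at h1
  have hn : n = 0 := by
    rcases h1 with h1 | h1
    · exact_mod_cast h1
    · exact absurd h1 hτ.ne'
  rw [hn] at h
  have h2 := congrArg Complex.re h
  simp at h2
  have h3 : (2 * m : ℤ) = (1 : ℤ) := by
    have : (2 * (m : ℝ)) = 1 := by linarith
    exact_mod_cast this
  omega

lemma not_lat_oneHalf : ¬ Lat τ (1 / 2) := by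
  rcases not_lat_one_half (τ := τ) with h | h
  · exact h
  · exact absurd h (not_le.mpr hτ)

lemma Xf_order_pole {z : ℂ} (hz : Lat τ z) : meromorphicOrderAt (Xf τ) z = ((-2 : ℤ) : WithTop ℤ) := by
  classical
  rw [Xf_order hτ, if_pos hz, if_neg]
  · simp
  · intro h
    have := hz.sub h
    rw [sub_sub_cancel] at this
    exact not_lat_oneHalf hτ this

/-- the derivative vanishes at half periods -/
lemma deriv_Xf_half {z : ℂ} (h2 : Lat τ (2 * z)) : deriv (Xf τ) z = 0 := by
  have e : (fun w => Xf τ (2 * z - w)) = Xf τ := by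
    funext w
    rw [← Xf_neg hτ w]
    refine (NEll_Xf hτ).eq_of_lat ?_
    convert h2 using 1
    ring
  have h3 : deriv (fun w => Xf τ (2 * z - w)) z = -deriv (Xf τ) (2 * z - z) :=
    deriv_comp_const_sub (f := Xf τ) (2 * z) z
  rw [e, show 2 * z - z = z by ring] at h3
  linear_combination h3 / 2

omit hτ in
lemma order_of_analytic {f : ℂ → ℂ} {z : ℂ} (hf : AnalyticAt ℂ f z) (h0 : f z = 0) :
    ((1 : ℤ) : WithTop ℤ) ≤ meromorphicOrderAt f z := by
  rw [hf.meromorphicOrderAt_eq]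
  have h1 : ((1 : ℕ) : ℕ∞) ≤ analyticOrderAt f z := by
    rw [natCast_le_analyticOrderAt_iff_iteratedDeriv_eq_zero hf]
    intro i hi
    interval_cases i
    simpa using h0
  cases h : analyticOrderAt f z with
  | top => simp
  | coe n =>
    rw [h] at h1
    simp only [ENat.map_natCast]
    have : 1 ≤ n := by exact_mod_cast h1
    exact_mod_cast this

omit hτ in
lemma order_of_analytic2 {f : ℂ → ℂ} {z : ℂ} (hf : AnalyticAt ℂ f z) (h0 : f z = 0)
    (h1 : deriv f z = 0) : ((2 : ℤ) : WithTop ℤ) ≤ meromorphicOrderAt f z := by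
  rw [hf.meromorphicOrderAt_eq]
  have h1 : ((2 : ℕ) : ℕ∞) ≤ analyticOrderAt f z := by
    rw [natCast_le_analyticOrderAt_iff_iteratedDeriv_eq_zero hf]
    intro i hi
    interval_cases i
    · simpa using h0
    · simpa using h1
  cases h : analyticOrderAt f z with
  | top => simp
  | coe n =>
    rw [h] at h1
    simp only [ENat.map_natCast]
    have : 2 ≤ n := by exact_mod_cast h1
    exact_mod_cast this

open Classical in
lemma ph_order (D z : ℂ) : meromorphicOrderAt (ph τ D) z =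
    (((if Lat τ (z - D) then 1 else 0) + (if Lat τ z then -2 else 0) +
      (if Lat τ (z + D) then 1 else 0) : ℤ) : WithTop ℤ) := by
  have e : ph τ D = EF τ 0 [(0 + D, 1), (0, -2), (0 - D, 1)] := rfl
  rw [e, EF_order hτ, dord_triple]
  simp only [zero_add, sub_zero, zero_sub, sub_neg_eq_add]

lemma ph_mero (D z : ℂ) : MeromorphicAt (ph τ D) z := EF_mero hτ _ _ z

lemma NEll_ph (D : ℂ) : NEll τ (ph τ D) := NEll_phi hτ D 0

lemma ph_analyticAt (D : ℂ) {z : ℂ} (hz : ¬ Lat τ z) : AnalyticAt ℂ (ph τ D) z := by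
  have e : ph τ D = fun z => Th τ (z - (0 + D)) * (Th τ (z - 0) ^ 2)⁻¹ * Th τ (z - (0 - D)) := by
    funext z; unfold ph; rw [phi_eq]
  rw [e]
  have h1 := Th_sub_analyticAt hτ (0 + D) z
  have h2 := Th_sub_analyticAt hτ 0 z
  have h3 := Th_sub_analyticAt hτ (0 - D) z
  exact (h1.mul ((h2.pow 2).inv (pow_ne_zero 2 (by simpa [Th_eq_zero_iff hτ] using hz)))).mul h3

lemma ph_eq_zero_iff {D z : ℂ} (hz : ¬ Lat τ z) :
    ph τ D z = 0 ↔ Lat τ (z - D) ∨ Lat τ (z + D) := by
  constructor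
  · intro h
    by_contra hcon
    push Not at hcon
    exact ph_ne_zero hτ hcon.1 hz hcon.2 h
  · intro h
    unfold ph
    rw [phi_eq]
    rcases h with h | h
    · rw [show z - (0 + D) = z - D by ring, (Th_eq_zero_iff hτ _).mpr h]; simp
    · rw [show z - (0 - D) = z + D by ring, (Th_eq_zero_iff hτ _).mpr h]; simp

/-- `X(z) - X(D)` is a constant multiple of `Th(z-D)Th(z+D)/Th(z)²`. -/
lemma Xf_sub {D : ℂ} (hD : ¬ Lat τ D) :
    ∃ c : ℂ, c ≠ 0 ∧ ∀ z, ¬ Lat τ z → Xf τ z - Xf τ D = c * ph τ D z := by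
  classical
  have hX := NEll_Xf hτ
  have hP := NEll_ph hτ D
  set N : ℂ → ℂ := fun z => Xf τ z - Xf τ D with hN
  have hNm : ∀ z, MeromorphicAt N z := fun z => (hX.mero z).sub (MeromorphicAt.const _ _)
  set Q : ℂ → ℂ := fun z => N z * (ph τ D z)⁻¹ with hQ
  have hQm : ∀ z, MeromorphicAt Q z := fun z => (hNm z).mul (hP.mero z).inv
  have hQo : ∀ z, meromorphicOrderAt Q z =
      meromorphicOrderAt N z - meromorphicOrderAt (ph τ D) z := by
    intro z
    have e : Q = N / ph τ D := by funext w; simp [hQ, div_eq_mul_inv]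
    rw [e, meromorphicOrderAt_div (hNm z) (hP.mero z)]
  have hN0 : ∀ z, Lat τ z → meromorphicOrderAt N z = ((-2 : ℤ) : WithTop ℤ) := by
    intro z hz
    have e : N = Xf τ + fun _ => -Xf τ D := by funext w; simp [hN, sub_eq_add_neg]
    have hle : (0 : WithTop ℤ) ≤ meromorphicOrderAt (fun _ : ℂ => -Xf τ D) z :=
      (analyticAt_const).meromorphicOrderAt_nonneg
    rw [e, meromorphicOrderAt_add_eq_left_of_lt (MeromorphicAt.const _ _)]
    · exact Xf_order_pole hτ hz
    · rw [Xf_order_pole hτ hz]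
      refine lt_of_lt_of_le ?_ hle
      exact_mod_cast (by norm_num : (-2 : ℤ) < 0)
  have hpole : ∀ z, Lat τ z → meromorphicOrderAt Q z = 0 := by
    intro z hz
    have h1 : ¬ Lat τ (z - D) := fun h => hD (by simpa using hz.sub h)
    have h2 : ¬ Lat τ (z + D) := fun h => hD (by simpa using h.sub hz)
    rw [hQo, hN0 z hz, ph_order hτ, if_neg h1, if_pos hz, if_neg h2]
    simp
  have hnonneg : ∀ z, 0 ≤ meromorphicOrderAt Q z := by
    intro z
    by_cases hz : Lat τ z
    · rw [hpole z hz]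
    have hNa : AnalyticAt ℂ N z := (Xf_analyticAt hτ hz).sub analyticAt_const
    have h0 := hNa.meromorphicOrderAt_nonneg
    rw [hQo, ph_order hτ, if_neg hz]
    have key : ∀ n : ℤ, ((n : ℤ) : WithTop ℤ) ≤ meromorphicOrderAt N z →
        (0 : WithTop ℤ) ≤ meromorphicOrderAt N z - ((n : ℤ) : WithTop ℤ) := by
      intro n hn
      cases hh : meromorphicOrderAt N z with
      | top => simp
      | coe a =>
        rw [hh] at hn
        have : n ≤ a := by exact_mod_cast hn
        exact_mod_cast (by omega : (0 : ℤ) ≤ a - n)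
    by_cases h1 : Lat τ (z - D) <;> by_cases h2 : Lat τ (z + D)
    · rw [if_pos h1, if_pos h2]
      apply key
      have h3 : Lat τ (2 * z) := by
        convert h1.add h2 using 1; ring
      refine order_of_analytic2 hNa ?_ ?_
      · simp only [hN]
        rw [hX.eq_of_lat h1, sub_self]
      · simp only [hN]
        rw [deriv_sub_const]
        exact deriv_Xf_half hτ h3
    · rw [if_pos h1, if_neg h2]
      apply key
      refine order_of_analytic hNa ?_
      simp only [hN]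
      rw [hX.eq_of_lat h1, sub_self]
    · rw [if_neg h1, if_pos h2]
      apply key
      refine order_of_analytic hNa ?_
      simp only [hN]
      have : Lat τ (z - (-D)) := by simpa using h2
      rw [hX.eq_of_lat this, Xf_neg hτ, sub_self]
    · rw [if_neg h1, if_neg h2]
      apply key
      simpa using h0
  obtain ⟨c, hc, -⟩ := liouville hτ hQm (fun z => by
      simp only [hQ, hN]; rw [hX.add_one, hP.add_one]) (fun z => by
      simp only [hQ, hN]; rw [hX.add_tau, hP.add_tau]) hnonneg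
  have hc0 : c ≠ 0 := by
    rintro rfl
    have h1 := hpole 0 (Lat_zero τ)
    rw [meromorphicOrderAt_congr (hc 0)] at h1
    have : meromorphicOrderAt (fun _ : ℂ => (0 : ℂ)) 0 = ⊤ := by
      rw [meromorphicOrderAt_eq_top_iff]; simp
    rw [this] at h1
    exact WithTop.top_ne_zero h1
  refine ⟨c, hc0, fun z hz => ?_⟩
  have ha1 : ContinuousAt N z := ((Xf_analyticAt hτ hz).sub analyticAt_const).continuousAt
  have ha2 : ContinuousAt (fun z => c * ph τ D z) z :=
    (analyticAt_const.mul (ph_analyticAt hτ D hz)).continuousAt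
  refine eq_of_eventually_ne ha1 ha2 ?_
  have hne : ∀ᶠ w in 𝓝[≠] z, ph τ D w ≠ 0 := by
    have := (meromorphicOrderAt_ne_top_iff_eventually_ne_zero (hP.mero z)).mp (hP.ne_top z)
    exact this
  filter_upwards [hc z, hne] with w hw hw0
  simp only [hQ] at hw
  rw [← hw, inv_mul_cancel_right₀ hw0]

lemma Xf_eq_iff {D z : ℂ} (hD : ¬ Lat τ D) (hz : ¬ Lat τ z) :
    Xf τ z = Xf τ D ↔ Lat τ (z - D) ∨ Lat τ (z + D) := by
  obtain ⟨c, hc, h⟩ := Xf_sub hτ hD
  rw [← ph_eq_zero_iff hτ hz, ← sub_eq_zero, h z hz]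
  simp [hc]

/-- `X` is surjective -/
lemma Xf_surj (x : ℂ) : ∃ z, ¬ Lat τ z ∧ Xf τ z = x := by
  classical
  by_contra hcon
  push Not at hcon
  have hX := NEll_Xf hτ
  set Q : ℂ → ℂ := fun z => (Xf τ z - x)⁻¹ with hQ
  have hNm : ∀ z, MeromorphicAt (fun z => Xf τ z - x) z :=
    fun z => (hX.mero z).sub (MeromorphicAt.const _ _)
  have hQo : ∀ z, meromorphicOrderAt Q z = -meromorphicOrderAt (fun z => Xf τ z - x) z := by
    intro z
    have e : Q = (fun z => Xf τ z - x)⁻¹ := by funext w; simp [hQ]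
    rw [e, meromorphicOrderAt_inv]
  have hpole : ∀ z, Lat τ z → meromorphicOrderAt Q z = ((2 : ℤ) : WithTop ℤ) := by
    intro z hz
    have e : (fun z => Xf τ z - x) = Xf τ + fun _ => -x := by funext w; simp [sub_eq_add_neg]
    have hle : (0 : WithTop ℤ) ≤ meromorphicOrderAt (fun _ : ℂ => -x) z :=
      (analyticAt_const).meromorphicOrderAt_nonneg
    rw [hQo, e, meromorphicOrderAt_add_eq_left_of_lt (MeromorphicAt.const _ _)]
    · rw [Xf_order_pole hτ hz]
      rfl
    · rw [Xf_order_pole hτ hz]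
      refine lt_of_lt_of_le ?_ hle
      exact_mod_cast (by norm_num : (-2 : ℤ) < 0)
  have hnon : ∀ z, 0 ≤ meromorphicOrderAt Q z := by
    intro z
    by_cases hz : Lat τ z
    · rw [hpole z hz]; exact_mod_cast (by norm_num : (0 : ℤ) ≤ 2)
    · have : meromorphicOrderAt (fun z => Xf τ z - x) z = 0 :=
        mOrd_of_ne ((Xf_analyticAt hτ hz).sub analyticAt_const) (sub_ne_zero.mpr (hcon z hz))
      rw [hQo, this, neg_zero]
  obtain ⟨c, hc, -⟩ := liouville (f := Q) hτ (fun z => (hNm z).inv) (fun z => by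
      simp only [hQ]; rw [hX.add_one]) (fun z => by
      simp only [hQ]; rw [hX.add_tau]) hnon
  have h1 := hpole 0 (Lat_zero τ)
  rw [meromorphicOrderAt_congr (hc 0)] at h1
  by_cases h0 : c = 0
  · subst h0
    have : meromorphicOrderAt (fun _ : ℂ => (0 : ℂ)) 0 = ⊤ := by
      rw [meromorphicOrderAt_eq_top_iff]; simp
    rw [this] at h1
    exact WithTop.top_ne_coe h1
  · rw [mOrd_of_ne analyticAt_const h0] at h1
    have : (0 : ℤ) = 2 := by exact_mod_cast h1
    omega

end

end Pool.Agent.Helper21.K1
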